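import Pool.Agent.helper4.NS.Prog
import Pool.Agent.helper63.NF.SpecNode

/-!
# Values of the polynomial blocks
-/

namespace Pool.Agent.helper4.NS

open Complex
open Pool.Agent.helper31.IA (Z get)
open Pool.Agent.helper12.RS
open Pool.Agent.helper63.NF

variable {L : List (ℕ × ℕ)} {u v : ℂ} {σ : ℕ → ℂ}

theorem big_val : (zi 2251799813685248).val = 2048 := by
  rw [zi_val, cv]
  norm_num

theorem scE_ev (a : ℤ) (e : E) : (scE a e).ev σ = cv a * e.ev σ := by
  unfold scE
  cases Nat.ble a.natAbs 4502500115742720 with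
  | true =>
    rw [cond_true]
    show (zi a).val * _ = _
    rw [zi_val]
  | false =>
    rw [cond_false]
    by_cases h : a % 2048 = 0
    · have h1 : (a % 2048 == 0) = true := by simpa using h
      rw [h1, cond_true]
      show (zi (a / 2048)).val * ((zi 2251799813685248).val * e.ev σ) = _
      rw [zi_val, big_val]
      have h2 : cv a = cv (a / 2048) * 2048 := by
        have h3 : a = a / 2048 * 2048 := by omega
        have h4 : cv a = cv (a / 2048 * 2048) := by rw [← h3]
        rw [h4]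
        unfold cv
        push_cast
        ring
      rw [h2]
      ring
    · have h1 : (a % 2048 == 0) = false := by simpa using h
      rw [h1, cond_false]
      show (zi a).val * _ = _
      rw [zi_val]

theorem rowS_ev (h : MI L u v σ) (i : ℕ) : ∀ (r : List ℤ) (j : ℕ) (t : Option E),
    oev σ (rowS L i j r t) + (if i = 0 ∧ j = 0 then cv (hd r) else 0) =
      oev σ t + u ^ i * v ^ j * horn (r.map cv) v := by
  intro r
  induction r with
  | nil =>
    intro j t
    show oev σ t + (if i = 0 ∧ j = 0 then cv 0 else 0) = oev σ t + u ^ i * v ^ j * 0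
    rw [cv_zero, ite_self, mul_zero]
  | cons a r ih =>
    intro j t
    rw [List.map_cons, horn_cons]
    have h1 := ih (j + 1) (bif (Nat.beq i 0 && Nat.beq j 0) || (a == 0) then t else
      addO t (scE a (mE L i j)))
    rw [if_neg (by omega)] at h1
    show oev σ (rowS L i (j + 1) r _) + (if i = 0 ∧ j = 0 then cv a else 0) = _
    have h2 : oev σ (bif (Nat.beq i 0 && Nat.beq j 0) || (a == 0) then t else
      addO t (scE a (mE L i j))) + (if i = 0 ∧ j = 0 then cv a else 0) =
        oev σ t + u ^ i * v ^ j * cv a := by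
      by_cases h3 : i = 0 ∧ j = 0
      · obtain ⟨rfl, rfl⟩ := h3
        simp
      · rw [if_neg h3]
        have h4 : (Nat.beq i 0 && Nat.beq j 0) = false := by
          rw [Bool.and_eq_false_iff]
          by_cases hi : i = 0
          · right
            have : j ≠ 0 := fun hj => h3 ⟨hi, hj⟩
            cases j with
            | zero => exact absurd rfl this
            | succ j => rfl
          · left
            cases i with
            | zero => exact absurd rfl hi
            | succ i => rfl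
        rw [h4, Bool.false_or]
        by_cases h5 : a = 0
        · subst h5
          simp [cv_zero]
        · have h6 : (a == 0) = false := by simpa using h5
          rw [h6, cond_false, addO_ev, scE_ev, mE_ev h]
          ring
    linear_combination h1 + h2

theorem rowsS_ev (h : MI L u v σ) : ∀ (c : List (List ℤ)) (i : ℕ) (t : Option E),
    oev σ (rowsS L i c t) + (if i = 0 then cv (hd2 c) else 0) =
      oev σ t + u ^ i * horn (c.map (fun r => horn (r.map cv) v)) u := by
  intro c
  induction c with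
  | nil =>
    intro i t
    show oev σ t + (if i = 0 then cv 0 else 0) = oev σ t + u ^ i * 0
    rw [cv_zero, ite_self, mul_zero]
  | cons r c ih =>
    intro i t
    rw [List.map_cons, horn_cons]
    have h1 := ih (i + 1) (rowS L i 0 r t)
    rw [if_neg (by omega)] at h1
    have h2 := rowS_ev h i r 0 t
    show oev σ (rowsS L (i + 1) c (rowS L i 0 r t)) + (if i = 0 then cv (hd r) else 0) = _
    have h3 : (if i = 0 ∧ 0 = 0 then cv (hd r) else 0) = (if i = 0 then cv (hd r) else 0) := by
      simp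
    rw [h3] at h2
    linear_combination h1 + h2

theorem q2E_ev (h : MI L u v σ) (a : ℤ) (c : List (List ℤ)) :
    (q2E L a c).ev σ = cv a + P2 (c.map (List.map cv)) u v := by
  have h1 := rowsS_ev h c 0 none
  rw [if_pos rfl, pow_zero, one_mul] at h1
  have h2 : horn (c.map (fun r => horn (r.map cv) v)) u = P2 (c.map (List.map cv)) u v := by
    unfold P2
    rw [List.map_map]
    rfl
  rw [h2] at h1
  unfold q2E
  cases h3 : rowsS L 0 c none with
  | none =>
    rw [h3] at h1
    show (zi (a + hd2 c)).val = _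
    rw [zi_val, cv_add]
    have : oev σ none = 0 := rfl
    rw [this] at h1
    linear_combination h1
  | some t =>
    rw [h3] at h1
    have h4 : oev σ (some t) = t.ev σ := rfl
    have h5 : oev σ none = 0 := rfl
    rw [h4, h5] at h1
    show (bif (a + hd2 c == 0) then t else .add t (.c (zi (a + hd2 c)))).ev σ = _
    by_cases h6 : a + hd2 c = 0
    · have : (a + hd2 c == 0) = true := by simpa using h6
      rw [this, cond_true]
      have h7 := cv_add a (hd2 c)
      rw [h6, cv_zero] at h7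
      linear_combination h1 + h7
    · have : (a + hd2 c == 0) = false := by simpa using h6
      rw [this, cond_false]
      show t.ev σ + (zi (a + hd2 c)).val = _
      rw [zi_val, cv_add]
      linear_combination h1

theorem q2E_ev0 (h : MI L u v σ) (c : List (List ℤ)) :
    (q2E L 0 c).ev σ = P2 (c.map (List.map cv)) u v := by
  rw [q2E_ev h, cv_zero, zero_add]

theorem q3E_ev (h : MI L u v σ) (y : E) (c : List (List (List ℤ))) :
    (q3E L y c).ev σ = P3 (c.map (List.map (List.map cv))) (y.ev σ) u v := by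
  unfold q3E P3
  rw [hornE_ev, List.map_map, List.map_map]
  congr 1
  apply List.map_congr_left
  intro r _
  show (q2E L 0 r).ev σ = P2 _ u v
  rw [q2E_ev h, cv_zero, zero_add]

theorem hqE_ev (h : MI L u v σ) (k : ℕ) (r : List (List ℤ)) :
    (hqE L k r).ev σ = (if k = 0 then 1 / 2 else 0) + P2 (r.map (List.map cv)) u v := by
  unfold hqE
  rw [q2E_ev h]
  cases k with
  | zero =>
    rw [if_pos rfl]
    have h1 : cv 549755813888 = 1 / 2 := by
      rw [cv]
      norm_num
    show cv 549755813888 + _ = _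
    rw [h1]
  | succ k =>
    rw [if_neg (by omega)]
    show cv 0 + _ = _
    rw [cv_zero]

theorem hlQ_congr {τ : ℕ → ℂ} (h : ∀ k, τ (hreg k) = σ (hreg k)) :
    ∀ (H : List (List (List ℤ))) (k : ℕ), (hlQ L k H).map (E.ev τ) = (hlQ L k H).map (E.ev σ) := by
  intro H
  induction H with
  | nil => intro k; rfl
  | cons r t ih =>
    intro k
    rw [hlQ, List.map_cons, List.map_cons, ih]
    congr 1
    cases hc : isC (hqE L k r) with
    | true => exact isC_ev hc _ _
    | false => exact h k

theorem sem_hsQ {Q : (ℕ → ℂ) → Prop} : ∀ (H : List (List (List ℤ))) (k : ℕ) (σ : ℕ → ℂ),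
    MI L u v σ → Sem (hsQ L k H) σ Q → ∃ τ, Q τ ∧ (hlQ L k H).map (E.ev τ) = hV u v k H ∧
      ∀ i, (∀ m, k ≤ m → i ≠ hreg m) → τ i = σ i := by
  intro H
  induction H with
  | nil =>
    intro k σ _ hs
    exact ⟨σ, hs, rfl, fun _ _ => rfl⟩
  | cons r t ih =>
    intro k σ h hs
    have h1 := hqE_ev h k r
    rw [hlQ, hV]
    cases hc : isC (hqE L k r) with
    | true =>
      rw [hsQ, hc, cond_true] at hs
      obtain ⟨τ, h2, h3, h4⟩ := ih (k + 1) σ h hs
      refine ⟨τ, h2, ?_, fun i hi => h4 i fun m hm => hi m (by omega)⟩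
      rw [cond_true, List.map_cons, h3, isC_ev hc τ σ, h1]
    | false =>
      rw [hsQ, hc, cond_false] at hs
      have h5 := hs.2 _ rfl
      have hI : MI L u v (upd σ (hreg k) ((hqE L k r).ev σ)) :=
        ⟨by rw [upd_ne (mreg_ne 1 0 k), h.hu], by rw [upd_ne (mreg_ne 0 1 k), h.hv], fun i j hij => by
          rw [upd_ne (mreg_ne i j k), h.hm i j hij]⟩
      obtain ⟨τ, h2, h3, h4⟩ := ih (k + 1) _ hI h5
      refine ⟨τ, h2, ?_, ?_⟩
      · rw [cond_false, List.map_cons, h3]
        congr 1
        show τ (hreg k) = _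
        rw [h4 (hreg k) (fun m hm => by unfold hreg; omega), upd_same, h1]
      · intro i hi
        rw [h4 i (fun m hm => hi m (by omega)), upd_ne (hi k le_rfl)]

/-- value of `1/2 + H + x` -/
theorem horn_exQ {H : List (List (List ℤ))} (hH : H ≠ []) {τ : ℕ → ℂ} {x : Option E} {y : E}
    (hl : (hlQ L 0 H).map (E.ev τ) = hV u v 0 H) :
    (hornE y (exE x (hlQ L 0 H))).ev τ =
      1 / 2 + P3 (H.map (List.map (List.map cv))) (y.ev τ) u v + oev τ x := by
  cases H with
  | nil => exact absurd rfl hH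
  | cons r t =>
    rw [hornE_ev]
    have h1 : P3 ((r :: t).map (List.map (List.map cv))) (y.ev τ) u v =
        P3 (t.map (List.map (List.map cv))) (y.ev τ) u v * (y.ev τ) +
          P2 (r.map (List.map cv)) u v := by
      unfold P3
      rw [List.map_cons, List.map_cons, horn_cons]
    rw [hlQ, List.map_cons, hV, if_pos rfl, List.cons.injEq] at hl
    rw [hlQ]
    cases x with
    | none =>
      show horn (List.map (E.ev τ) (_ :: _)) _ = _
      rw [List.map_cons, horn_cons, hl.1, hl.2, horn_hV t _ 1 one_pos, h1]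
      show _ = _ + 0
      ring
    | some x =>
      show horn (List.map (E.ev τ) (E.add x _ :: _)) _ = _
      rw [List.map_cons, horn_cons, hl.2, horn_hV t _ 1 one_pos, h1]
      show _ + (x.ev τ + E.ev τ _) = _ + x.ev τ
      rw [hl.1]
      ring

/-! ### The function `sinh w/w` -/

/-- `sinh w/w` -/
noncomputable def SC (w : ℂ) : ℂ := (E1F w + E1F (-w)) / 2

theorem mul_SC (w : ℂ) : w * SC w = sinh w := by
  unfold SC E1F
  by_cases h : w = 0
  · simp [h]
  · rw [if_neg h, if_neg (neg_ne_zero.2 h), Complex.sinh]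
    field_simp
    ring

theorem SC_conj (w : ℂ) : SC (starRingEnd ℂ w) = starRingEnd ℂ (SC w) := by
  have h : ∀ z : ℂ, E1F (starRingEnd ℂ z) = starRingEnd ℂ (E1F z) := by
    intro z
    unfold E1F
    by_cases hz : z = 0
    · simp [hz]
    · rw [if_neg hz, if_neg (by simpa using hz), map_div₀, map_sub, map_one, exp_conj]
  unfold SC
  rw [h, ← map_neg, h, map_div₀, map_add]
  congr 1
  exact (Complex.conj_ofNat 2).symm

theorem bl_norm (σ : ℕ → ℂ) : ‖bl.ev σ‖ = 65536 / 2 ^ 40 := by
  show ‖(zi 65536).val‖ = _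
  rw [zi_val, cv, Complex.norm_real, Real.norm_of_nonneg (by positivity)]
  norm_num

theorem SC_bound {w : ℂ} (h : ‖w ^ 2‖ < 1 / 16) :
    ‖SC w - ((cv 9162596898 * w ^ 2 + cv 183251937962) * w ^ 2 + 1)‖ ≤ 65536 / 2 ^ 40 := by
  have hw : ‖w‖ < 1 / 4 := by
    rw [norm_pow] at h
    nlinarith [norm_nonneg w]
  have h1 := E1F_bound (n := 6) (r := 1 / 4) (by norm_num) hw (by norm_num)
  have h2 := E1F_bound (n := 6) (z := -w) (r := 1 / 4) (by norm_num) (by rw [norm_neg]; exact hw)
    (by norm_num)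
  have e1 : ∑ k ∈ Finset.range 6, w ^ k / ((k + 1).factorial : ℂ) =
      1 + w / 2 + w ^ 2 / 6 + w ^ 3 / 24 + w ^ 4 / 120 + w ^ 5 / 720 := by
    simp [Finset.sum_range_succ, Nat.factorial]
    norm_num
  have e2 : ∑ k ∈ Finset.range 6, (-w) ^ k / ((k + 1).factorial : ℂ) =
      1 - w / 2 + w ^ 2 / 6 - w ^ 3 / 24 + w ^ 4 / 120 - w ^ 5 / 720 := by
    simp [Finset.sum_range_succ, Nat.factorial]
    ring
  rw [e1] at h1
  rw [e2] at h2
  have e3 : SC w - ((cv 9162596898 * w ^ 2 + cv 183251937962) * w ^ 2 + 1) =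
      (1 / 2) * (E1F w - (1 + w / 2 + w ^ 2 / 6 + w ^ 3 / 24 + w ^ 4 / 120 + w ^ 5 / 720)) +
      (1 / 2) * (E1F (-w) - (1 - w / 2 + w ^ 2 / 6 - w ^ 3 / 24 + w ^ 4 / 120 - w ^ 5 / 720)) +
      ((1 / 6 - cv 183251937962) + (1 / 120 - cv 9162596898) * w ^ 2) * w ^ 2 := by
    unfold SC
    ring
  have e4 : (1 / 6 - cv 183251937962 : ℂ) = ((1 / 6 - 183251937962 / 2 ^ 40 : ℝ) : ℂ) := by
    unfold cv
    push_cast
    ring
  have e5 : (1 / 120 - cv 9162596898 : ℂ) = ((1 / 120 - 9162596898 / 2 ^ 40 : ℝ) : ℂ) := by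
    unfold cv
    push_cast
    ring
  rw [e3, e4, e5]
  have n1 : ‖((1 / 6 - 183251937962 / 2 ^ 40 : ℝ) : ℂ) + ((1 / 120 - 9162596898 / 2 ^ 40 : ℝ) : ℂ) * w ^ 2‖
      ≤ 1 / 2 ^ 39 := by
    refine (norm_add_le _ _).trans ?_
    rw [norm_mul, Complex.norm_real, Complex.norm_real, Real.norm_of_nonneg (by norm_num),
      Real.norm_of_nonneg (by norm_num)]
    have : (1 / 120 - 9162596898 / 2 ^ 40 : ℝ) * ‖w ^ 2‖ ≤ (1 / 120 - 9162596898 / 2 ^ 40 : ℝ) * (1 / 16) :=
      mul_le_mul_of_nonneg_left h.le (by norm_num)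
    refine (add_le_add_right this _).trans ?_
    norm_num
  have n2 : ‖(1 / 2 : ℂ)‖ = 1 / 2 := by norm_num
  refine (norm_add_le _ _).trans ?_
  refine (add_le_add_left (norm_add_le _ _) _).trans ?_
  rw [norm_mul, norm_mul, norm_mul, n2]
  have n3 : ‖((1 / 6 - 183251937962 / 2 ^ 40 : ℝ) : ℂ) + ((1 / 120 - 9162596898 / 2 ^ 40 : ℝ) : ℂ) * w ^ 2‖ *
      ‖w ^ 2‖ ≤ 1 / 2 ^ 39 * (1 / 16) := mul_le_mul n1 h.le (norm_nonneg _) (by positivity)
  have n4 := mul_le_mul_of_nonneg_left h1 (show (0 : ℝ) ≤ 1 / 2 by norm_num)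
  have n5 := mul_le_mul_of_nonneg_left h2 (show (0 : ℝ) ≤ 1 / 2 by norm_num)
  refine (add_le_add (add_le_add n4 n5) n3).trans ?_
  norm_num [Nat.factorial]

/-- the value chosen in the ball -/
theorem SC_mem {w : ℂ} {g : ℂ} {i : ℕ} {τ : ℕ → ℂ} (hg : τ i = g) (hw : g = w ^ 2)
    (h : ‖g‖ < (68719476736 : ℕ) / 2 ^ 40) : ‖SC w - (sncE (.r i)).ev τ‖ ≤ ‖bl.ev τ‖ := by
  rw [bl_norm]
  have h1 : (sncE (.r i)).ev τ = (cv 9162596898 * w ^ 2 + cv 183251937962) * w ^ 2 + 1 := by
    show ((zi 9162596898).val * τ i + (zi 183251937962).val) * τ i + (zi 1099511627776).val = _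
    rw [zi_val, zi_val, one_val, hg, hw]
  rw [h1]
  apply SC_bound
  rw [← hw]
  refine h.trans_le ?_
  norm_num

end Pool.Agent.helper4.NS
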