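import Pool.Agent.helper4.NS.SpecDef

/-!
# Meaning of the link block
-/

namespace Pool.Agent.helper4.NS

open Complex
open Pool.Agent.helper31.IA (Z get)
open Pool.Agent.helper12.RS
open Pool.Agent.helper63.NF

theorem aQ_ev {t : TD} {e κ : ℝ} {σ : ℕ → ℂ} (hM : MI t.L (t.tb.de e) (t.tb.db e κ) σ)
    (hk : σ 7 = (κ : ℂ)) (m : ℕ) : (aQ t m).ev σ =
      P2 (c2 (nth [] t.a m)) (t.tb.de e) (t.tb.db e κ) * exp (-(cv (nth 0 t.j m) * κ)) := by
  unfold aQ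
  have h1 := q2E_ev0 hM (nth [] t.a m)
  by_cases hj : nth 0 t.j m = 0
  · have h2 : (nth 0 t.j m == 0) = true := by simpa using hj
    simp only [h2, cond_true]
    rw [h1, hj, cv_zero, zero_mul, neg_zero, Complex.exp_zero, mul_one]
    rfl
  · have h2 : (nth 0 t.j m == 0) = false := by simpa using hj
    simp only [h2, cond_false]
    rw [mulR_ev, h1]
    show _ * exp (-((zi (nth 0 t.j m)).val * σ 7)) = _
    rw [zi_val, hk]
    rfl

/-- `e (exp (2w) - 1)` by the function `sinh w/w` -/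
theorem exp_sub_SC {e : ℝ} (he : 0 < e) {w ww : ℂ} (hw : w = 1 / 2 * (((1 / e : ℝ) : ℂ) * ww)) :
    ww * (exp w * SC w) = (exp (ww * ((1 / e : ℝ) : ℂ)) - 1) * e := by
  have he0 : (e : ℂ) ≠ 0 := by exact_mod_cast he.ne'
  have h1 : ww = 2 * e * w := by
    rw [hw]
    push_cast
    field_simp
  have h2 : ww * ((1 / e : ℝ) : ℂ) = 2 * w := by
    rw [hw]
    push_cast
    ring
  have h3 := mul_SC w
  rw [h2, h1]
  have h4 : exp (2 * w) - 1 = 2 * exp w * sinh w := by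
    rw [Complex.sinh, two_mul, Complex.exp_add]
    have h5 : exp w * exp (-w) = 1 := by rw [← Complex.exp_add, add_neg_cancel, Complex.exp_zero]
    linear_combination h5
  rw [h4, ← h3]
  ring

theorem Ts_eq {κ : ℝ} {T u : ℂ} (h : u * ((Real.cosh κ : ℂ) + T) = 1) :
    u * ((Real.cosh κ : ℂ) * T + (Real.sinh κ : ℂ) ^ 2) = (Real.cosh κ : ℂ) - u := by
  have h1 : (Real.cosh κ : ℂ) ^ 2 - (Real.sinh κ : ℂ) ^ 2 = 1 := by
    exact_mod_cast Real.cosh_sq_sub_sinh_sq κ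
  linear_combination (Real.cosh κ : ℂ) * h - u * h1

set_option maxHeartbeats 4000000 in
/-- **The link blocks.** -/
theorem lnkS_spec {t : TD} {e κ : ℝ} (he : 0 < e) {m : ℕ} {σ : ℕ → ℂ} {Q : (ℕ → ℂ) → Prop}
    {T x : ℂ} (hF : HFS t e κ σ) (hN : NOS t e κ 26 T σ) (hT : σ 2 = T * e) (hx : σ 3 = x)
    (h : Sem (lnkS t (m + 1) ++ lnkT) σ Q) :
    ∃ τ T1, Q τ ∧ (∀ i, (i < 45 ∧ i ≠ 5) ∨ 77 ≤ i → τ i = σ i) ∧ LKS t e κ m T x T1 τ := by
  have he0 : (e : ℂ) ≠ 0 := by exact_mod_cast he.ne'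
  have h := sem_append _ _ _ h
  have h := sem_append _ _ _ h
  have h := sem_append _ _ _ h
  have n26 : σ 26 = (Real.cosh κ : ℂ) + T := hN.Q
  have n27 : σ 27 = Tb.uT κ T := hN.u
  have n29 : σ 29 = Tb.yT e κ T := hN.y
  have n30 : σ 30 = t.tb.lT e κ T - ((e * κ : ℝ) : ℂ) := hN.l2
  have n31 : σ 31 = t.tb.lT e κ T := hN.l
  have n32 : σ 32 = exp (-(t.tb.lT e κ T)) := hN.M
  have n34 : σ 34 = lc (t.tb.lT e κ T) := hN.m
  have e0 := hF.ep
  have e7 := hF.k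
  have e11 := hF.qi
  have e13 := hF.c
  have e18 := hF.Ke
  have e19 := hF.Ze
  have e21 := hF.eK
  have e22 := hF.one
  have e25 := hF.LMi
  obtain ⟨u, hu⟩ : ∃ u, u = Tb.uT κ T := ⟨_, rfl⟩
  obtain ⟨K, hK⟩ : ∃ K, K = (Real.sinh κ : ℂ) := ⟨_, rfl⟩
  obtain ⟨c, hc⟩ : ∃ c, c = (Real.cosh κ : ℂ) := ⟨_, rfl⟩
  obtain ⟨a, ha⟩ : ∃ a, a = t.tb.an e κ m := ⟨_, rfl⟩
  obtain ⟨den, hden⟩ : ∃ den, den = t.tb.c m * (T * e) + 1 := ⟨_, rfl⟩
  obtain ⟨r, hr⟩ : ∃ r, r = t.tb.rT e κ m T := ⟨_, rfl⟩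
  obtain ⟨l, hl⟩ : ∃ l, l = t.tb.lT e κ T := ⟨_, rfl⟩
  obtain ⟨g1, hg1⟩ : ∃ g1, g1 = log (1 - r * x) := ⟨_, rfl⟩
  obtain ⟨g2, hg2⟩ : ∃ g2, g2 = log (1 + exp (-l) * (r * x)) := ⟨_, rfl⟩
  have Qne : (Real.cosh κ : ℂ) + T ≠ 0 := ne_of_re hN.Qre
  have huQ : u * (c + T) = 1 := by
    rw [hu, hc]
    exact inv_mul_cancel₀ Qne
  have hyv : Tb.yT e κ T = (1 - u ^ 2) * e := by
    unfold Tb.yT
    rw [Tb.YT_eq' Qne, hu]
    ring
  have hTs := Ts_eq (κ := κ) (T := T) (u := u) (by rw [← hc]; exact huQ)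
  rw [← hu] at n27
  rw [← hK] at e18 e21 hTs
  rw [← hc] at e13 n26 hTs
  rw [← hl] at n30 n31 n32 n34
  rw [hyv] at n29
  obtain ⟨-, h⟩ := sem_set h (x := (T + K) * e) (by
    show σ 2 + σ 18 = _
    rw [hT, e18]
    ring)
  obtain ⟨-, h⟩ := sem_set h (x := a) (by
    have hM : MI t.L (t.tb.de e) (t.tb.db e κ) (upd σ 45 ((T + K) * e)) :=
      ⟨by rw [upd_ne (mreg_ne_lt (by omega)).symm, hF.mi.hu],
        by rw [upd_ne (mreg_ne_lt (by omega)).symm, hF.mi.hv],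
        fun i j hij => by rw [upd_ne (mreg_ne_lt (by omega)).symm, hF.mi.hm i j hij]⟩
    rw [aQ_ev hM (by rw [upd_ne (by omega), e7]), ha]
    rfl)
  obtain ⟨-, h⟩ := sem_set h (x := den) (by
    rw [hden]
    simp only [E.ev, upd, Nat.reduceEqDiff, reduceIte, zi_val, hT, e22]
    rfl)
  obtain ⟨-, p1, h⟩ := h
  have dre : 0 < den.re := p1
  have dne := ne_of_re dre
  obtain ⟨-, h⟩ := sem_set h (x := den⁻¹) (by simp [E.ev, upd])
  obtain ⟨-, h⟩ := sem_set h (x := r) (by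
    have : r = (T + K) * e * (2 * a) * den⁻¹ := by
      have h1 : den = (((1 / e : ℝ) : ℂ) + t.tb.c m * T) * e := by
        rw [hden]
        push_cast
        field_simp
        ring
      have h2 : ((1 / e : ℝ) : ℂ) + t.tb.c m * T ≠ 0 := by
        intro h0
        rw [h0, zero_mul] at h1
        exact dne h1
      rw [hr, ha, hK, h1]
      unfold Tb.rT
      field_simp
    rw [this]
    simp [E.ev, upd, two_val])
  obtain ⟨-, h⟩ := sem_set h (x := r * x) (by simp [E.ev, upd, hx])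
  obtain ⟨-, h⟩ := sem_set h (x := 1 - r * x) (by simp [E.ev, upd, e22])
  obtain ⟨-, p2, h⟩ := h
  have gre : 0 < (1 - r * x).re := p2
  obtain ⟨-, h⟩ := sem_set h (x := g1) (by simp [E.ev, upd, hg1])
  obtain ⟨-, h⟩ := sem_set h (x := 1 + exp (-l) * (r * x)) (by
    simp [E.ev, upd, e22, n32]
    ring)
  obtain ⟨-, p3, h⟩ := h
  have fre : 0 < (1 + exp (-l) * (r * x)).re := p3
  obtain ⟨-, h⟩ := sem_set h (x := g2) (by simp [E.ev, upd, hg2])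
  obtain ⟨ww, hww⟩ : ∃ ww, ww = l + (g2 - g1) := ⟨_, rfl⟩
  obtain ⟨-, h⟩ := sem_set h (x := ww) (by simp [E.ev, upd, n31, hww])
  obtain ⟨aa, haa⟩ : ∃ aa, aa = l - ((e * κ : ℝ) : ℂ) + 2 * (lc l - (LM e κ : ℂ)) - (g1 + g2) := ⟨_, rfl⟩
  obtain ⟨-, h⟩ := sem_set h (x := aa) (by simp [E.ev, upd, n30, n34, e25, two_val, haa])
  obtain ⟨w, hw⟩ : ∃ w, w = 1 / 2 * (((1 / e : ℝ) : ℂ) * ww) := ⟨_, rfl⟩
  obtain ⟨-, h⟩ := sem_set h (x := w) (by simp [E.ev, upd, half_val, e0, hw])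
  obtain ⟨-, h⟩ := sem_set h (x := w ^ 2) (by
    simp [E.ev, upd]
    ring)
  obtain ⟨-, p4, h⟩ := h
  obtain ⟨-, -, h⟩ := h
  have h := h (SC w) (SC_mem (upd_same _ _) rfl (by
    have : ∀ τ : ℕ → ℂ, (E.r 57).ev (upd τ 57 (w ^ 2)) = w ^ 2 := fun τ => upd_same _ _
    rw [this] at p4
    exact_mod_cast p4))
  obtain ⟨W, hW⟩ : ∃ W, W = exp (ww * ((1 / e : ℝ) : ℂ)) := ⟨_, rfl⟩
  obtain ⟨-, h⟩ := sem_set h (x := (W - 1) * e) (by
    rw [hW, ← exp_sub_SC he hw]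
    simp [E.ev, upd])
  obtain ⟨-, -, h⟩ := h
  obtain ⟨-, h⟩ := sem_set h (x := (e : ℂ)) (by
    simp only [E.ev, upd, Nat.reduceEqDiff, reduceIte, e0]
    push_cast
    rw [one_div, inv_inv])
  obtain ⟨A, hA⟩ : ∃ A, A = exp (aa * ((1 / e : ℝ) : ℂ)) := ⟨_, rfl⟩
  obtain ⟨-, h⟩ := sem_set h (x := (A - 1) * e) (by
    rw [hA, mul_comm aa]
    simp [E.ev, upd, e0, one_val])
  obtain ⟨-, h⟩ := sem_set h (x := (c - u) * e) (by
    have h1 : (c - u) * e = u * (c * (T * e) + K ^ 2 * e) := by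
      linear_combination -(e : ℂ) * hTs
    rw [h1]
    simp [E.ev, upd, n27, e13, hT, e21])
  obtain ⟨Qs, hQs⟩ : ∃ Qs, Qs = c - u + c := ⟨_, rfl⟩
  obtain ⟨-, h⟩ := sem_set h (x := Qs) (by
    have h1 : Qs = ((1 / e : ℝ) : ℂ) * ((c - u) * e) + c := by
      rw [hQs]
      push_cast
      field_simp
    rw [h1]
    simp only [E.ev, upd, Nat.reduceEqDiff, reduceIte, e13, e0])
  obtain ⟨-, p5, h⟩ := h
  have qre : 0 < Qs.re := p5
  have qne := ne_of_re qre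
  obtain ⟨-, h⟩ := sem_set h (x := Qs⁻¹) (by simp [E.ev, upd])
  obtain ⟨z, hz⟩ : ∃ z, z = (Hh κ : ℂ) ^ 2 := ⟨_, rfl⟩
  rw [← hz] at e19
  obtain ⟨Num, hNum⟩ : ∃ Num, Num = (W - 1) * (1 - u ^ 2 + z) - 2 * ((c - u) * (c - u)) -
    1 / 2 * (z * z) + z * (A - 1) * (W - 1 + 2) := ⟨_, rfl⟩
  obtain ⟨-, h⟩ := sem_set h (x := Num * e * e) (by
    have h1 : Num * e * e = (W - 1) * e * ((1 - u ^ 2) * e + z * e) - 2 * ((c - u) * e * ((c - u) * e)) -
        1 / 2 * (z * e * (z * e)) + z * e * ((A - 1) * e * (((1 / e : ℝ) : ℂ) * ((W - 1) * e) + 2)) := by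
      rw [hNum]
      push_cast
      field_simp
    rw [h1]
    simp only [E.ev, upd, Nat.reduceEqDiff, reduceIte, n29, e19, two_val, half_val, e0])
  obtain ⟨-, h⟩ := sem_set h (x := ((1 / e : ℝ) : ℂ) * Qs⁻¹) (by
    simp only [E.ev, upd, Nat.reduceEqDiff, reduceIte, e0])
  obtain ⟨S1, hS1⟩ : ∃ S1, S1 = Num * Qs⁻¹ * Qs⁻¹ + 1 := ⟨_, rfl⟩
  obtain ⟨-, h⟩ := sem_set h (x := S1) (by
    have h1 : S1 = ((1 / e : ℝ) : ℂ) * Qs⁻¹ * (((1 / e : ℝ) : ℂ) * Qs⁻¹) * (Num * e * e) + 1 := by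
      rw [hS1]
      push_cast
      field_simp
    rw [h1]
    simp only [E.ev, upd, Nat.reduceEqDiff, reduceIte, e22])
  obtain ⟨-, p6, h⟩ := h
  have sre : 0 < S1.re := p6
  obtain ⟨-, h⟩ := sem_set h (x := log S1) (by simp [E.ev, upd])
  obtain ⟨rt, hrt⟩ : ∃ rt, rt = exp (1 / 2 * log S1) := ⟨_, rfl⟩
  obtain ⟨-, h⟩ := sem_set h (x := rt + 1) (by
    rw [hrt]
    simp only [E.ev, upd, Nat.reduceEqDiff, reduceIte, e22, half_val])
  obtain ⟨-, p7, h⟩ := h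
  have r1re : 0 < (rt + 1).re := p7
  have r1ne := ne_of_re r1re
  obtain ⟨hl1, hl2⟩ := log_root qre sre
  rw [← hrt] at hl1 hl2
  have hrt2 : rt ^ 2 = S1 := by
    rw [mul_pow] at hl2
    exact mul_left_cancel₀ (pow_ne_zero 2 qne) hl2
  obtain ⟨dT, hdT⟩ : ∃ dT, dT = Qs * (rt - 1) := ⟨_, rfl⟩
  obtain ⟨-, h⟩ := sem_set h (x := dT * e * e) (by
    have h1 : dT * e * e = Num * e * e * Qs⁻¹ * (rt + 1)⁻¹ := by
      have h2 : (rt - 1) * (rt + 1) = Num * Qs⁻¹ * Qs⁻¹ := by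
        linear_combination hrt2 + hS1
      have h3 : rt - 1 = Num * Qs⁻¹ * Qs⁻¹ * (rt + 1)⁻¹ := by
        rw [← h2]
        field_simp
      rw [hdT, h3]
      field_simp
    rw [h1]
    simp only [E.ev, upd, Nat.reduceEqDiff, reduceIte])
  obtain ⟨T1, hT1⟩ : ∃ T1, T1 = c - u + dT := ⟨_, rfl⟩
  obtain ⟨-, h⟩ := sem_set h (x := T1 * e) (by
    have h1 : T1 * e = (c - u) * e + ((1 / e : ℝ) : ℂ) * (dT * e * e) := by
      rw [hT1]
      push_cast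
      field_simp
    rw [h1]
    simp only [E.ev, upd, Nat.reduceEqDiff, reduceIte, e0])
  -- lnkT
  have h : Sem lnkT _ Q := h
  obtain ⟨-, p8, h⟩ := h
  have tkre' : 0 < ((T + K) * e).re := p8
  have tkre : 0 < (T + K).re := by
    rw [Complex.mul_re, Complex.ofReal_re, Complex.ofReal_im, mul_zero, sub_zero] at tkre'
    exact (pos_iff_pos_of_mul_pos tkre').2 he
  obtain ⟨-, h⟩ := sem_set h (x := ((T + K) * e)⁻¹) (by simp [E.ev, upd])
  obtain ⟨p, hp⟩ : ∃ p, p = ((T + K) * e)⁻¹ * ((Real.exp (-κ) : ℂ) * (c + T)) := ⟨_, rfl⟩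
  obtain ⟨-, h⟩ := sem_set h (x := p) (by
    rw [hp]
    simp only [E.ev, upd, Nat.reduceEqDiff, reduceIte, e11, n26])
  obtain ⟨-, h⟩ := sem_set h (x := p * (dT * e * e)) (by
    simp only [E.ev, upd, Nat.reduceEqDiff, reduceIte])
  obtain ⟨-, h⟩ := sem_set h (x := ((1 / e : ℝ) : ℂ) * (p * (dT * e * e)) + 1) (by
    simp only [E.ev, upd, Nat.reduceEqDiff, reduceIte, e0, e22])
  obtain ⟨-, p9, h⟩ := h
  have sre2 : 0 < (((1 / e : ℝ) : ℂ) * (p * (dT * e * e)) + 1).re := p9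
  obtain ⟨-, h⟩ := sem_set h (x := Qs * (Real.exp (-κ) : ℂ)) (by
    simp only [E.ev, upd, Nat.reduceEqDiff, reduceIte, e11])
  obtain ⟨-, -, h⟩ := h
  have hQ1 : c + T1 = Qs * rt := by
    rw [hT1, hdT, hQs]
    ring
  obtain ⟨-, h⟩ := sem_set h (x := (e : ℂ) * log (c + T1) - ((e * κ : ℝ) : ℂ)) (by
    rw [hQ1, hl1]
    have h5 := log_mul_qi (κ := κ) qne
    simp only [E.ev, upd, Nat.reduceEqDiff, reduceIte, half_val]
    rw [h5]
    push_cast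
    ring)
  refine ⟨_, T1, h, ?_, ?_⟩
  · intro i hi
    repeat rw [upd_ne (by omega)]
  · have hSn : Sn e κ (Tb.yT e κ T) l (r * x) = (c + T1) ^ 2 := by
      have h10 := Sn_form he (κ := κ) (y := Tb.yT e κ T) (l := l) (χ := r * x) (W := W) (A := A)
        (by
          rw [hW, hww, hg1, hg2]
          congr 1
          push_cast
          field_simp
          ring)
        (by
          rw [hA, haa, hg1, hg2]
          congr 1
          ring)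
      rw [h10, hQ1, hl2, hS1, ← hz]
      have h11 : Tb.yT e κ T / e = 1 - u ^ 2 := by
        rw [hyv]
        field_simp
      have h12 : z = 2 * (c - 1) := by
        rw [hz, hc]
        have := Hh_sq κ
        exact_mod_cast this
      rw [h11]
      have h13 : Qs ^ 2 * (Num * Qs⁻¹ * Qs⁻¹ + 1) = Num + Qs ^ 2 := by
        field_simp
      rw [h13, hNum, hQs, h12]
      ring
    have hdT1 : dT * e * e = (T1 - ((Real.cosh κ : ℂ) - Tb.uT κ T)) * e * e := by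
      rw [hT1, ← hc, ← hu]
      ring
    rw [hK, hc] at *
    refine ⟨?_, ?_, tkre, ?_, ?_, ?_, ?_, ?_, ?_, ?_, ?_, ?_, ?_, ?_, ?_, ?_, ?_, ?_⟩
    · simp only [upd, Nat.reduceEqDiff, reduceIte]
    · simp only [upd, Nat.reduceEqDiff, reduceIte]
    · simp only [upd, Nat.reduceEqDiff, reduceIte, ha]
    · simp only [upd, Nat.reduceEqDiff, reduceIte, hden]
    · rw [← hden]; exact dre
    · simp only [upd, Nat.reduceEqDiff, reduceIte, hr]
    · rw [← hl, ← hr]; exact fre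
    · rw [← hr]; exact gre
    · rw [← hl, ← hr]; exact hSn
    · simp only [upd, Nat.reduceEqDiff, reduceIte, hdT1]
    · simp only [upd, Nat.reduceEqDiff, reduceIte]
    · simp only [upd, Nat.reduceEqDiff, reduceIte]
    · simp only [upd, Nat.reduceEqDiff, reduceIte, hp]
    · simp only [upd, Nat.reduceEqDiff, reduceIte]
    · simp only [upd, Nat.reduceEqDiff, reduceIte]
    · simp only [upd, Nat.reduceEqDiff, reduceIte]
      exact sre2
    · simp only [upd, Nat.reduceEqDiff, reduceIte]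

end Pool.Agent.helper4.NS
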