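import Pool.Agent.helper4.NS.SpecDef

/-!
# Meaning of the node block
-/

namespace Pool.Agent.helper4.NS

open Complex
open Pool.Agent.helper31.IA (Z get)
open Pool.Agent.helper12.RS
open Pool.Agent.helper63.NF

theorem poleQ_spec {t : TD} (hok : t.ok = true) {u v : ℂ} {y B : ℕ} (hB : B + 5 ≤ 128)
    {σ : ℕ → ℂ} {Q : (ℕ → ℂ) → Prop} (hM : MI t.L u v σ) (h : Sem (poleQ t y B) σ Q) :
    ∃ τ, Q τ ∧ (∀ i, i < B ∨ B + 5 ≤ i → τ i = σ i) ∧ podom t.tb.pol u (σ y) ∧
      ∀ H, P3 H (σ y) u v + oev τ (poR t (B + 4)) = HP t.tb.pol H (σ y) u v := by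
  cases hp : t.pol with
  | none =>
    have h1 : t.tb.pol = none := by
      show t.pol.map PD.po = none
      rw [hp]; rfl
    have h2 : poleQ t y B = [] := by
      unfold poleQ
      rw [hp]
    rw [h2] at h
    refine ⟨σ, h, fun _ _ => rfl, ?_, ?_⟩
    · intro p hp'
      rw [h1] at hp'
      cases hp'
    · intro H
      rw [h1]
      unfold poR
      rw [hp]
      exact add_zero _
  | some p =>
    have h1 : t.tb.pol = some p.po := by
      show t.pol.map PD.po = _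
      rw [hp]; rfl
    obtain ⟨g1, g2⟩ := TD.ok_pol hok hp
    have h2 : poleQ t y B =
      [.set B (.sub (.r y) (bif p.w1 == 0 then .c (zi p.wr) else .add (.sc (zi p.w1) (.r (mreg 1 0)))
        (.c (zi p.wr)))),
     .pos (.r B), .set (B + 1) (.inv (.r B)), .set (B + 2) (.add (.r B) (.sc (zi p.wi2) (.r (B + 1)))),
     .pos (.r (B + 2)), .set (B + 3) (.inv (.r (B + 2))),
     .set (B + 4) (.mul (.add (q2E t.L 0 p.rho) (mulS (.r (B + 1)) (q2E t.L 0 p.sig))) (.r (B + 3)))] := by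
      unfold poleQ
      rw [hp]
    rw [h2] at h
    have hm : ∀ i j, MI t.L u v (upd σ i j) ∨ ¬ i < 128 := by
      intro i j
      by_cases hi : i < 128
      · left
        exact ⟨by rw [upd_ne (mreg_ne_lt hi).symm, hM.hu], by rw [upd_ne (mreg_ne_lt hi).symm, hM.hv],
          fun a b hab => by rw [upd_ne (mreg_ne_lt hi).symm, hM.hm a b hab]⟩
      · exact Or.inr hi
    obtain ⟨-, h⟩ := sem_set h (x := p.po.z u (σ y)) (by
      have hz : p.po.z u (σ y) = σ y - (cv p.w1 * u + cv p.wr) := rfl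
      rw [hz]
      by_cases hw : p.w1 = 0
      · have hw' : (p.w1 == 0) = true := by simpa using hw
        rw [hw', cond_true, hw, cv_zero]
        show σ y - (zi p.wr).val = _
        rw [zi_val]
        ring
      · have hw' : (p.w1 == 0) = false := by simpa using hw
        rw [hw', cond_false]
        show σ y - ((zi p.w1).val * σ (mreg 1 0) + (zi p.wr).val) = _
        rw [zi_val, zi_val, hM.hu])
    obtain ⟨-, p1, h⟩ := h
    have p1' : 0 < (p.po.z u (σ y)).re := by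
      have : (E.r B).ev (upd σ B (p.po.z u (σ y))) = p.po.z u (σ y) := upd_same _ _
      rw [this] at p1
      exact p1
    obtain ⟨z, hz⟩ : ∃ z, z = p.po.z u (σ y) := ⟨_, rfl⟩
    rw [← hz] at h p1'
    have hz0 := ne_of_re p1'
    obtain ⟨-, h⟩ := sem_set h (x := z⁻¹) (by
      show (upd σ B z B)⁻¹ = _
      rw [upd_same])
    obtain ⟨-, h⟩ := sem_set h (x := z + cv p.wi * cv p.wi * z⁻¹) (by
      show upd (upd σ B z) (B + 1) z⁻¹ B + (zi p.wi2).val * upd (upd σ B z) (B + 1) z⁻¹ (B + 1) = _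
      rw [upd_same, upd_ne (by omega), upd_same, zi_val, g1])
    obtain ⟨-, p2, h⟩ := h
    obtain ⟨q, hq⟩ : ∃ q, q = z + cv p.wi * cv p.wi * z⁻¹ := ⟨_, rfl⟩
    rw [← hq] at h
    have p2' : 0 < q.re := by
      rw [hq]
      have : ∀ w, (E.r (B + 2)).ev (upd (upd (upd σ B z) (B + 1) z⁻¹) (B + 2) w) = w :=
        fun w => upd_same _ _
      rw [this] at p2
      exact p2
    have hq0 := ne_of_re p2'
    obtain ⟨-, h⟩ := sem_set h (x := q⁻¹) (by
      show (upd _ (B + 2) q (B + 2))⁻¹ = _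
      rw [upd_same])
    have hM4 : MI t.L u v (upd (upd (upd (upd σ B z) (B + 1) z⁻¹) (B + 2) q) (B + 3) q⁻¹) := by
      have k : ∀ a b, upd (upd (upd (upd σ B z) (B + 1) z⁻¹) (B + 2) q) (B + 3) q⁻¹ (mreg a b) =
          σ (mreg a b) := fun a b => by
        rw [upd_ne (mreg_ne_lt (by omega)).symm, upd_ne (mreg_ne_lt (by omega)).symm,
          upd_ne (mreg_ne_lt (by omega)).symm, upd_ne (mreg_ne_lt (by omega)).symm]
      exact ⟨by rw [k, hM.hu], by rw [k, hM.hv], fun a b hab => by rw [k, hM.hm a b hab]⟩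
    obtain ⟨-, h⟩ := sem_set h (x := (P2 (c2 p.rho) u v + z⁻¹ * P2 (c2 p.sig) u v) * q⁻¹) (by
      show ((q2E t.L 0 p.rho).ev _ + (mulS (.r (B + 1)) (q2E t.L 0 p.sig)).ev _) * upd _ (B + 3) _ (B + 3) = _
      rw [mulS_ev, q2E_ev hM4, q2E_ev hM4, cv_zero, zero_add, zero_add, upd_same]
      show (_ + upd (upd (upd (upd σ B z) (B + 1) z⁻¹) (B + 2) q) (B + 3) q⁻¹ (B + 1) * _) * _ = _
      rw [upd_ne (by omega), upd_ne (by omega), upd_same]
      rfl)
    have hzz : z * q = z * z + cv p.wi * cv p.wi := by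
      rw [hq]
      field_simp
    have hne : z * z + cv p.wi * cv p.wi ≠ 0 := by
      rw [← hzz]
      exact mul_ne_zero hz0 hq0
    refine ⟨_, h, ?_, ?_, ?_⟩
    · intro i hi
      rw [upd_ne (by omega), upd_ne (by omega), upd_ne (by omega), upd_ne (by omega),
        upd_ne (by omega)]
    · intro p' hp'
      rw [h1, Option.some.injEq] at hp'
      rw [← hp']
      show p.po.z u (σ y) * p.po.z u (σ y) + cv p.wi * cv p.wi ≠ 0
      rw [← hz]
      exact hne
    · intro H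
      rw [h1]
      show _ = P3 H (σ y) u v + p.po.val u (σ y) v
      rw [po_val g2, ← hz]
      unfold poR
      rw [hp]
      show _ + upd _ (B + 4) _ (B + 4) = _
      rw [upd_same]
      congr 1
      have : (z * z + cv p.wi * cv p.wi)⁻¹ = z⁻¹ * q⁻¹ := by
        rw [← hzz, mul_inv]
      rw [this]
      field_simp

/-- **The node block.** -/
theorem nodS_spec {t : TD} (hok : t.ok = true) {e κ : ℝ} (he : 0 < e) {z B : ℕ}
    (hB : B = 26 ∨ B = 80) (hzB : z < B) {σ : ℕ → ℂ} {Q : (ℕ → ℂ) → Prop} {T : ℂ}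
    (hF : HFS t e κ σ) (hH : HHS t e κ σ) (hz : σ z = T * e) (h : Sem (nodS t z B) σ Q) :
    ∃ τ, Q τ ∧ (∀ i, i < B ∨ B + 16 ≤ i → τ i = σ i) ∧ NOS t e κ B T τ := by
  have he0 : (e : ℂ) ≠ 0 := by exact_mod_cast he.ne'
  have h := sem_append _ _ _ h
  have h := sem_append _ _ _ h
  obtain ⟨-, h⟩ := sem_set h (x := (Real.cosh κ : ℂ) + T) (by
    show σ 0 * σ z + σ 13 = _
    rw [hF.c, hz, hF.ep]
    push_cast
    field_simp
    ring)
  obtain ⟨-, q1, h⟩ := h
  have Qre : 0 < ((Real.cosh κ : ℂ) + T).re := by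
    have : ∀ w, (E.r B).ev (upd σ B w) = w := fun w => upd_same _ _
    rwa [this] at q1
  have Q0 := ne_of_re Qre
  obtain ⟨q, hq⟩ : ∃ q, q = (Real.cosh κ : ℂ) + T := ⟨_, rfl⟩
  rw [← hq] at h
  have e11 := hF.qi
  have e14 := hF.b2
  have e18 := hF.Ke
  have e22 := hF.one
  obtain ⟨u, hu⟩ : ∃ u, u = Tb.uT κ T := ⟨_, rfl⟩
  have hu' : q⁻¹ = u := by
    rw [hq, hu]
    rfl
  obtain ⟨-, h⟩ := sem_set h (x := u) (by
    show (upd σ B q B)⁻¹ = _
    rw [upd_same, hu'])
  obtain ⟨-, h⟩ := sem_set h (x := Tb.vT e κ T) (by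
    show (upd _ (B + 1) u 11 * upd _ (B + 1) u (B + 1)) *
      ((upd _ (B + 1) u z - upd _ (B + 1) u 18) * (upd _ (B + 1) u 11 + upd _ (B + 1) u (B + 1))) = _
    rw [upd_same, upd_ne (by omega), upd_ne (by omega), upd_ne (by omega), upd_ne (by omega),
      upd_ne (by omega), upd_ne (by omega), e11, e18, hz]
    unfold Tb.vT
    rw [← hu]
    ring)
  obtain ⟨-, h⟩ := sem_set h (x := Tb.yT e κ T) (by
    show upd _ (B + 2) _ (B + 2) + two.val * (upd _ (B + 2) _ 11 * upd _ (B + 2) _ 18) = _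
    rw [upd_same, upd_ne (by omega), upd_ne (by omega), upd_ne (by omega), upd_ne (by omega),
      upd_ne (by omega), upd_ne (by omega), e11, e18, two_val]
    unfold Tb.yT
    rw [Tb.YT_eq' Q0, Tb.vT_eq' Q0]
    have h3 : (Real.exp (-κ) : ℂ) * (Real.sinh κ : ℂ) = (1 - (Real.exp (-κ) : ℂ) ^ 2) / 2 := by
      have h5 : Real.exp (-κ) * Real.sinh κ = (1 - Real.exp (-κ) ^ 2) / 2 := by
        have h6 : Real.exp (-κ) * Real.exp κ = 1 := by
          rw [← Real.exp_add, neg_add_cancel, Real.exp_zero]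
        rw [Real.sinh_eq]
        linear_combination (1 / 2) * h6
      exact_mod_cast h5
    linear_combination (2 * (e : ℂ)) * h3)
  obtain ⟨σ1, hσ1⟩ : ∃ σ1, σ1 = upd (upd (upd (upd σ B q) (B + 1) u) (B + 2) (Tb.vT e κ T))
    (B + 3) (Tb.yT e κ T) := ⟨_, rfl⟩
  rw [← hσ1] at h
  have f1 : ∀ i, i < B ∨ B + 4 ≤ i → σ1 i = σ i := by
    intro i hi
    rw [hσ1, upd_ne (by omega), upd_ne (by omega), upd_ne (by omega), upd_ne (by omega)]
  have B128 : B + 16 ≤ 128 := by omega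
  have hM1 : MI t.L (t.tb.de e) (t.tb.db e κ) σ1 := by
    have k : ∀ a b, σ1 (mreg a b) = σ (mreg a b) := fun a b => f1 _ (by
      have := mreg_ge a b
      omega)
    exact ⟨by rw [k, hF.mi.hu], by rw [k, hF.mi.hv], fun a b hab => by rw [k, hF.mi.hm a b hab]⟩
  have hy1 : σ1 (B + 3) = Tb.yT e κ T := by
    rw [hσ1, upd_same]
  obtain ⟨σ2, h, f2, hpd, hval⟩ := poleQ_spec hok (y := B + 3) (B := B + 11) (by omega) hM1 h
  rw [hy1] at hpd hval
  have hH2 : (hlQ t.L 0 t.H).map (E.ev σ2) = hV (t.tb.de e) (t.tb.db e κ) 0 t.H := by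
    have hH' : (hlQ t.L 0 t.H).map (E.ev σ) = hV (t.tb.de e) (t.tb.db e κ) 0 t.H := hH
    rw [← hH']
    apply hlQ_congr
    intro k
    have := hreg_ge k
    rw [f2 _ (by omega), f1 _ (by omega)]
  have g3 : σ2 (B + 3) = Tb.yT e κ T := by rw [f2 _ (by omega), hy1]
  have g2 : σ2 (B + 2) = Tb.vT e κ T := by
    rw [f2 _ (by omega), hσ1, upd_ne (by omega), upd_same]
  have k14 : σ2 14 = ((e * κ : ℝ) : ℂ) := by rw [f2 _ (by omega), f1 _ (by omega), e14]
  have k22 : σ2 22 = 1 := by rw [f2 _ (by omega), f1 _ (by omega), e22]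
  obtain ⟨lt, hlt⟩ : ∃ lt, lt = t.tb.lT e κ T - ((e * κ : ℝ) : ℂ) := ⟨_, rfl⟩
  obtain ⟨-, h⟩ := sem_set h (x := lt) (by
    show σ2 (B + 2) * (HQ t (B + 3) (B + 11)).ev σ2 = _
    have h3 : (HQ t (B + 3) (B + 11)).ev σ2 = 1 / 2 + HP t.tb.pol t.tb.H (Tb.yT e κ T)
        (t.tb.de e) (t.tb.db e κ) := by
      unfold HQ
      have h4 := horn_exQ (TD.ok_H hok) (x := poR t (B + 11 + 4)) (y := .r (B + 3)) hH2
      have h5 : (E.r (B + 3)).ev σ2 = Tb.yT e κ T := g3
      rw [h5] at h4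
      have h6 := hval (c3 t.H)
      have h7 : t.tb.H = c3 t.H := rfl
      rw [h7, ← h6]
      refine h4.trans ?_
      show 1 / 2 + P3 (c3 t.H) _ _ _ + _ = _
      ring
    rw [h3, g2, hlt]
    unfold Tb.lT
    ring)
  obtain ⟨l, hl⟩ : ∃ l, l = t.tb.lT e κ T := ⟨_, rfl⟩
  obtain ⟨-, h⟩ := sem_set h (x := l) (by
    show upd _ (B + 4) lt (B + 4) + upd _ (B + 4) lt 14 = _
    rw [upd_same, upd_ne (by omega), k14, hlt, hl]
    ring)
  obtain ⟨-, h⟩ := sem_set h (x := exp (-l)) (by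
    show exp (-(upd _ (B + 5) l (B + 5))) = _
    rw [upd_same])
  obtain ⟨-, h⟩ := sem_set h (x := exp (-l) + 1) (by
    show upd _ (B + 6) _ (B + 6) + upd _ (B + 6) _ 22 = _
    rw [upd_same, upd_ne (by omega), upd_ne (by omega), upd_ne (by omega), k22])
  obtain ⟨-, q2, h⟩ := h
  have q2' : 0 < (exp (-l) + 1).re := by
    have : ∀ (w : ℕ → ℂ) (x : ℂ), (E.r (B + 7)).ev (upd w (B + 7) x) = x := fun w x => upd_same _ _
    rw [this] at q2
    exact q2
  obtain ⟨-, h⟩ := sem_set h (x := lc l) (by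
    show log (upd _ (B + 7) _ (B + 7)) = _
    rw [upd_same]
    unfold lc
    rw [add_comm])
  refine ⟨_, h, ?_, ?_⟩
  · intro i hi
    rw [upd_ne (by omega), upd_ne (by omega), upd_ne (by omega), upd_ne (by omega),
      upd_ne (by omega), f2 _ (by omega), f1 _ (by omega)]
  · have q3 : 0 < (1 + exp (-(t.tb.lT e κ T))).re := by
      rw [← hl, add_comm]
      exact q2'
    have w0 : σ2 B = q := by
      rw [f2 _ (by omega), hσ1]
      rw [upd_ne (by omega), upd_ne (by omega), upd_ne (by omega), upd_same]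
    have w1 : σ2 (B + 1) = u := by
      rw [f2 _ (by omega), hσ1]
      rw [upd_ne (by omega), upd_ne (by omega), upd_same]
    refine ⟨?_, Qre, ?_, ?_, ?_, hpd, ?_, ?_, ?_, ?_, q3, ?_⟩
    · rw [upd_ne (by omega), upd_ne (by omega), upd_ne (by omega), upd_ne (by omega),
        upd_ne (by omega), w0, hq]
    · rw [upd_ne (by omega), upd_ne (by omega), upd_ne (by omega), upd_ne (by omega),
        upd_ne (by omega), w1, hu]
    · rw [upd_ne (by omega), upd_ne (by omega), upd_ne (by omega), upd_ne (by omega),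
        upd_ne (by omega), g2]
    · rw [upd_ne (by omega), upd_ne (by omega), upd_ne (by omega), upd_ne (by omega),
        upd_ne (by omega), g3]
    · rw [upd_ne (by omega), upd_ne (by omega), upd_ne (by omega), upd_ne (by omega),
        upd_same, hlt]
    · rw [upd_ne (by omega), upd_ne (by omega), upd_ne (by omega), upd_same, hl]
    · rw [upd_ne (by omega), upd_ne (by omega), upd_same, hl]
    · rw [upd_ne (by omega), upd_same, hl]
    · rw [upd_same, hl]

end Pool.Agent.helper4.NS
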