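import Pool.Agent.helper4.NS.SpecHead
import Pool.Agent.helper4.NS.SpecNode
import Pool.Agent.helper4.NS.SpecLink

/-!
# Meaning of the common part of the near nodes
-/

namespace Pool.Agent.helper4.NS

open Complex
open Pool.Agent.helper31.IA (Z get)
open Pool.Agent.helper12.RS
open Pool.Agent.helper63.NF

theorem LKS.of_eq {t : TD} {e κ : ℝ} {m : ℕ} {T x T1 : ℂ} {σ τ : ℕ → ℂ} (h : LKS t e κ m T x T1 σ)
    (h1 : ∀ i, i < 77 → τ i = σ i) : LKS t e κ m T x T1 τ := by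
  refine ⟨?_, ?_, h.TKre, ?_, ?_, h.dre, ?_, h.F, h.g, h.S, ?_, ?_, ?_, ?_, ?_, ?_, ?_, ?_⟩
  · rw [h1 5 (by omega), h.ie]
  · rw [h1 45 (by omega), h.fTK]
  · rw [h1 46 (by omega), h.fa]
  · rw [h1 47 (by omega), h.fden]
  · rw [h1 49 (by omega), h.fr]
  · rw [h1 69 (by omega), h.fD2]
  · rw [h1 70 (by omega), h.f70]
  · rw [h1 71 (by omega), h.fiTK]
  · rw [h1 72 (by omega), h.fp]
  · rw [h1 73 (by omega), h1 72 (by omega), h1 69 (by omega), h.fpd]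
  · rw [h1 74 (by omega), h1 73 (by omega), h.fs]
  · rw [h1 74 (by omega)]
    exact h.sre
  · rw [h1 75 (by omega), h.fLQ]

/-- **The displacement.** -/
theorem dspS_spec {t : TD} {e κ : ℝ} (he : 0 < e) (hκ : 0 < κ) {m : ℕ} {σ : ℕ → ℂ}
    {Q : (ℕ → ℂ) → Prop} {T x T1 : ℂ} (hF : HFS t e κ σ) (hQ : 0 < ((Real.cosh κ : ℂ) + T).re)
    (hL : LKS t e κ m T x T1 σ) (n : ℕ) (h : Sem (dspS t n) σ Q) :
    ∃ τ, Q τ ∧ (∀ i, i < 77 ∨ 79 ≤ i → τ i = σ i) ∧ 0 < t.tR n e κ ∧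
      ‖omT κ T1 - (kk κ : ℂ) * omT κ T‖ ≤ dS t n e κ := by
  have he0 : (e : ℂ) ≠ 0 := by exact_mod_cast he.ne'
  have e7 := hF.k
  have g72 := hL.fp
  have g73 := hL.fpd
  have g74 := hL.fs
  have g69 := hL.fD2
  have gs := hL.sre
  obtain ⟨p, hp⟩ : ∃ p, p = (T + (Real.sinh κ : ℂ))⁻¹ *
    ((Real.exp (-κ) : ℂ) * ((Real.cosh κ : ℂ) + T)) := ⟨_, rfl⟩
  obtain ⟨dT, hdT⟩ : ∃ dT, dT = T1 - ((Real.cosh κ : ℂ) - Tb.uT κ T) := ⟨_, rfl⟩
  have k72 : σ 72 = p * (e : ℂ)⁻¹ := by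
    rw [g72, hp, mul_inv]
    ring
  have k73 : σ 73 = p * dT * e := by
    rw [g73, k72, g69, ← hdT]
    field_simp
  have k74 : σ 74 = p * dT + 1 := by
    rw [g74, k73]
    push_cast
    field_simp
  rw [k74] at gs
  obtain ⟨tr, htr⟩ : ∃ tr, tr = t.tR n e κ := ⟨_, rfl⟩
  obtain ⟨-, h⟩ := sem_set h (x := (tr : ℂ)) (by
    have h1 := q2E_ev hF.mi 0 (nth [] t.t n)
    rw [cv_zero, zero_add] at h1
    rw [h1, htr]
    exact t.tR_eq n e κ)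
  obtain ⟨-, h⟩ := sem_set h (x := (Real.exp (((n + 1 : ℕ) : ℝ) * κ) : ℂ)) (by
    show exp ((zn (n + 1)).val * upd σ 77 _ 7) = _
    rw [upd_ne (by omega), e7, zn_val]
    push_cast
    rfl)
  obtain ⟨-, p1, h⟩ := h
  have tpos : 0 < tr := by
    have h2 : (upd (upd σ 77 (tr : ℂ)) 78 (Real.exp (((n + 1 : ℕ) : ℝ) * κ) : ℂ) 77) = (tr : ℂ) := by
      rw [upd_ne (by omega), upd_same]
    have h3 : 0 < (upd (upd σ 77 (tr : ℂ)) 78 (Real.exp (((n + 1 : ℕ) : ℝ) * κ) : ℂ) 77).re := p1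
    rwa [h2, ofReal_re] at h3
  obtain ⟨Ek, hE⟩ : ∃ Ek, Ek = (Real.exp (((n + 1 : ℕ) : ℝ) * κ) : ℂ) := ⟨_, rfl⟩
  rw [← hE] at h
  obtain ⟨-, h4, h5⟩ := h
  refine ⟨_, h5, ?_, by rw [← htr]; exact tpos, ?_⟩
  · intro i hi
    rw [upd_ne (by omega), upd_ne (by omega)]
  · have h6 := lt_one h4
    have h7 : E.ev (upd (upd σ 77 (tr : ℂ)) 78 Ek)
        ((E.sc two ((E.r 73).mul (E.r 78))).mul (((E.r 72).mul (E.r 74).inv).mul
          ((E.r 78).mul (E.r 77).inv))) =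
      2 * 1 * (p * dT) * Ek * ((p * (p * dT + 1)⁻¹) * (Ek * (tr : ℂ)⁻¹)) := by
      simp only [E.ev, upd, Nat.reduceEqDiff, reduceIte, two_val]
      rw [k72, k73, k74]
      field_simp
    rw [h7, hE] at h6
    have hs := Real.sinh_pos_iff.2 hκ
    have b2 : ‖(Real.sinh κ : ℂ)‖ ≤ Real.sinh κ * ‖(1 : ℂ)‖ := by
      rw [Complex.norm_real, Real.norm_of_nonneg hs.le, norm_one, mul_one]
    have hQne := ne_of_re hQ
    have hd := omT_diff hQne (u := Tb.uT κ T) rfl (ne_of_re hL.TKre) (p := p) (dT := dT) hp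
      (ne_of_re gs)
    have hT1 : (Real.cosh κ : ℂ) - Tb.uT κ T + dT = T1 := by
      rw [hdT]
      ring
    rw [hT1] at hd
    have := disp_of (κ := κ) (t := tr) (n := n + 1) (Kk := 1) (pd := p * dT)
      (ps := p * (p * dT + 1)⁻¹) (Kc := (Real.sinh κ : ℂ)) (dK := Real.sinh κ) tpos hs.le b2 hd h6
    unfold dS
    rw [← htr]
    exact this

/-- **The cut.** -/
theorem ctS_spec {t : TD} {e κ : ℝ} (he : 0 < e) {σ : ℕ → ℂ} {Q : (ℕ → ℂ) → Prop} {T1 : ℂ}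
    (hF : HFS t e κ σ) {z : ℕ} (hz : z < 79) (hT : σ z = T1 * e) (n : ℕ)
    (h : Sem (ctS t n z) σ Q) :
    ∃ τ, Q τ ∧ (∀ i, i ≠ 79 → τ i = σ i) ∧
      ‖T1 ^ 2 - (Real.sinh κ : ℂ) ^ 2‖ ≤ Real.sinh κ ^ 2 + t.Y n e := by
  have e20 := hF.Ke2
  obtain ⟨y, hy⟩ : ∃ y, y = ((nth 0 t.y n : ℤ) : ℝ) / 2 ^ 40 := ⟨_, rfl⟩
  have hyc : (zi (nth 0 t.y n)).val = (y : ℂ) := by rw [zi_val, hy, cv]
  obtain ⟨K, hK⟩ : ∃ K, K = Real.sinh κ := ⟨_, rfl⟩
  rw [← hK] at e20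
  obtain ⟨-, h⟩ := sem_set h (x := ((K ^ 2 * e ^ 2 + y : ℝ) : ℂ)) (by
    show σ 20 + (zi (nth 0 t.y n)).val = _
    rw [e20, hyc]
    push_cast
    ring)
  obtain ⟨-, p1, h⟩ := h
  have Bpos : 0 < K ^ 2 * e ^ 2 + y := by
    have h3 : 0 < (upd σ 79 ((K ^ 2 * e ^ 2 + y : ℝ) : ℂ) 79).re := p1
    rwa [upd_same, ofReal_re] at h3
  obtain ⟨-, h4, h5⟩ := h
  refine ⟨_, h5, ?_, ?_⟩
  · intro i hi
    rw [upd_ne hi]
  · have h6 := lt_one h4
    have h7 : E.ev (upd σ 79 ((K ^ 2 * e ^ 2 + y : ℝ) : ℂ))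
        ((((E.r z).mul (E.r z)).sub (E.r 20)).mul (E.r 79).inv) =
        (T1 ^ 2 - (K : ℂ) ^ 2) * ((e ^ 2 * (K ^ 2 * e ^ 2 + y)⁻¹ : ℝ) : ℂ) := by
      show (upd σ 79 _ z * upd σ 79 _ z - upd σ 79 _ 20) * (upd σ 79 _ 79)⁻¹ = _
      rw [upd_same, upd_ne (show z ≠ 79 by omega), upd_ne (show (20 : ℕ) ≠ 79 by omega), hT, e20]
      push_cast
      ring
    rw [h7, norm_mul, Complex.norm_real, Real.norm_of_nonneg (by positivity)] at h6
    have h8 : ‖T1 ^ 2 - (K : ℂ) ^ 2‖ * e ^ 2 < K ^ 2 * e ^ 2 + y := by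
      have h9 := mul_lt_mul_of_pos_right h6 Bpos
      rw [one_mul] at h9
      have h10 : ‖T1 ^ 2 - (K : ℂ) ^ 2‖ * (e ^ 2 * (K ^ 2 * e ^ 2 + y)⁻¹) * (K ^ 2 * e ^ 2 + y) =
          ‖T1 ^ 2 - (K : ℂ) ^ 2‖ * e ^ 2 := by
        rw [mul_assoc, mul_assoc, inv_mul_cancel₀ Bpos.ne', mul_one]
      rwa [h10] at h9
    unfold TD.Y
    rw [← hy, ← hK]
    have he2 : 0 < e ^ 2 := by positivity
    have h11 : K ^ 2 + y / e ^ 2 = (K ^ 2 * e ^ 2 + y) / e ^ 2 := by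
      field_simp
    rw [h11, le_div_iff₀ he2]
    exact h8.le

/-- **The common part.** -/
theorem nerS_spec {t : TD} (hok : t.ok = true) {e κ : ℝ} (he : 0 < e) (hκ : 0 < κ) {m : ℕ}
    {σ : ℕ → ℂ} {Q : (ℕ → ℂ) → Prop} {T x : ℂ} (h0 : σ 0 = ((1 / e : ℝ) : ℂ))
    (h1 : σ 1 = ((e * κ / 2 : ℝ) : ℂ)) (h2 : σ 2 = T * e) (h3 : σ 3 = x)
    (h : Sem (nerS t (m + 1)) σ Q) : ∃ τ T1, Q τ ∧ NRS t e κ m T x T1 τ := by
  have he0 : (e : ℂ) ≠ 0 := by exact_mod_cast he.ne'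
  have h := sem_append _ _ _ h
  have h := sem_append _ _ _ h
  have h := sem_append _ _ _ h
  rw [List.append_assoc (headQ t (E.r 1) ++ nodS t 2 26)] at h
  have h := sem_append _ _ _ h
  have h := sem_append _ _ _ h
  have h := sem_append _ _ _ h
  obtain ⟨σ1, h, hF1, -, k2, k3⟩ := headS_spec he h0 (b := .r 1) (by
    show upd σ 22 1 1 = _
    rw [upd_ne (by omega), h1]) h
  obtain ⟨σ2, h, hH2, f2⟩ := sem_hsQ t.H 0 σ1 hF1.mi h
  have hF2 : HFS t e κ σ2 := hF1.of_eq (fun i hi _ _ _ _ => f2 i fun a _ => by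
      have := hreg_ge a
      omega) (fun i j => f2 _ fun a _ => mreg_ne i j a)
  have lt2 : ∀ i, i < 128 → σ2 i = σ1 i := fun i hi => f2 i fun a _ => by
      have := hreg_ge a
      omega
  obtain ⟨σ3, h, f3, hN3⟩ := nodS_spec hok he (Or.inl rfl) (by omega) hF2 hH2
    (by rw [lt2 2 (by omega), k2, h2]) h
  have hF3 : HFS t e κ σ3 := hF2.of_eq (fun i hi _ _ _ _ => f3 i (by omega)) (fun i j => f3 _ (by
    have := mreg_ge i j
    omega))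
  have hH3 : HHS t e κ σ3 := by
    unfold HHS
    rw [← hH2]
    apply hlQ_congr
    intro k
    have := hreg_ge k
    exact f3 _ (by omega)
  obtain ⟨σ4, T1, h, f4, hL4⟩ := lnkS_spec he hF3 hN3 (T := T) (x := x)
    (by rw [f3 2 (by omega), lt2 2 (by omega), k2, h2])
    (by rw [f3 3 (by omega), lt2 3 (by omega), k3, h3]) h
  have hF4 : HFS t e κ σ4 := hF3.of_eq (fun i hi _ _ _ _ => f4 i (by omega)) (fun i j => f4 _ (by
    have := mreg_ge i j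
    omega))
  obtain ⟨σ5, h, f5, tpos, hD⟩ := dspS_spec he hκ hF4 hN3.Qre hL4 (m + 1) h
  have hF5 : HFS t e κ σ5 := hF4.of_eq (fun i hi _ _ _ _ => f5 i (by omega)) (fun i j => f5 _ (by
    have := mreg_ge i j
    omega))
  have hL5 : LKS t e κ m T x T1 σ5 := hL4.of_eq fun i _ => f5 i (by omega)
  obtain ⟨σ6, h, f6, hC⟩ := ctS_spec he hF5 (z := 70) (by omega) hL5.f70 (m + 1) h
  have hF6 : HFS t e κ σ6 := hF5.of_eq (fun i hi _ _ _ _ => f6 i (by omega)) (fun i j => f6 _ (by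
    have := mreg_ge i j
    omega))
  have hL6 : LKS t e κ m T x T1 σ6 := hL5.of_eq fun i _ => f6 i (by omega)
  have hN6 : NOS t e κ 26 T σ6 := hN3.of_eq fun i _ _ => by
    rw [f6 i (by omega), f5 i (by omega), f4 i (by omega)]
  have hH6 : HHS t e κ σ6 := by
    unfold HHS
    rw [← hH3]
    apply hlQ_congr
    intro k
    have := hreg_ge k
    rw [f6 _ (by omega), f5 _ (by omega), f4 _ (by omega)]
  have x6 : σ6 3 = x := by
    rw [f6 3 (by omega), f5 3 (by omega), f4 3 (by omega), f3 3 (by omega), lt2 3 (by omega), k3, h3]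
  have g29 : σ6 29 = Tb.yT e κ T := hN6.y
  obtain ⟨a, ha⟩ : ∃ a, a = t.tb.an e κ m := ⟨_, rfl⟩
  obtain ⟨s, hs⟩ : ∃ s, s = t.s2 (m + 1) := ⟨_, rfl⟩
  have hsv : (scZ t (m + 1)).val = s := by
    rw [hs]
    exact zn_val _
  have g46 := hL6.fa
  rw [← ha] at g46
  obtain ⟨-, h⟩ := sem_set h (x := t.tb.MT e κ m T) (by
    rw [q3E_ev hF6.mi]
    show P3 (c3 (nth [] t.M (m + 1))) (σ6 29) _ _ = _
    rw [g29]
    rfl)
  obtain ⟨-, h⟩ := sem_set h (x := s * a) (by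
    show (scZ t (m + 1)).val * upd σ6 96 _ 46 = _
    rw [upd_ne (by omega), hsv, g46])
  obtain ⟨-, p1, h⟩ := h
  have sa : 0 < (s * a).re := by
    have p2 : 0 < (upd (upd σ6 96 (t.tb.MT e κ m T)) 97 (s * a) 97).re := p1
    rwa [upd_same] at p2
  have sane := ne_of_re sa
  have ane : a ≠ 0 := right_ne_zero_of_mul sane
  obtain ⟨-, h⟩ := sem_set h (x := (s * a)⁻¹) (by
    show (upd _ 97 _ 97)⁻¹ = _
    rw [upd_same])
  have g47 := hL6.fden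
  have g71 := hL6.fiTK
  obtain ⟨-, h⟩ := sem_set h (x := 1 / 2 * ((t.tb.c m * (T * e) + 1) *
      ((T + (Real.sinh κ : ℂ)) * e)⁻¹ * (s * a)⁻¹)) (by
    simp only [E.ev, upd, Nat.reduceEqDiff, reduceIte, half_val]
    rw [g47, g71])
  refine ⟨_, T1, h, ?_⟩
  have key : ∀ w1 w2 w3 w4 : ℂ, ∀ i, i ≠ 96 → i ≠ 97 → i ≠ 98 → i ≠ 99 →
      upd (upd (upd (upd σ6 96 w1) 97 w2) 98 w3) 99 w4 i = σ6 i := by
    intro w1 w2 w3 w4 i i1 i2 i3 i4
    rw [upd_ne i4, upd_ne i3, upd_ne i2, upd_ne i1]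
  have TKne : T + (Real.sinh κ : ℂ) ≠ 0 := ne_of_re hL6.TKre
  have dne := ne_of_re hL6.dre
  refine ⟨?_, ?_, ?_, ?_, ?_, ?_, ?_, ?_, ?_, ?_, tpos, hD, hC⟩
  · exact hF6.of_eq (fun i hi _ _ _ _ => key _ _ _ _ i (by omega) (by omega) (by omega) (by omega))
      (fun i j => by
        have := mreg_ge i j
        exact key _ _ _ _ _ (by omega) (by omega) (by omega) (by omega))
  · unfold HHS
    rw [← hH6]
    apply hlQ_congr
    intro k
    have := hreg_ge k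
    exact key _ _ _ _ _ (by omega) (by omega) (by omega) (by omega)
  · exact hN6.of_eq fun i _ _ => key _ _ _ _ i (by omega) (by omega) (by omega) (by omega)
  · exact hL6.of_eq fun i _ => key _ _ _ _ i (by omega) (by omega) (by omega) (by omega)
  · rw [key _ _ _ _ 3 (by omega) (by omega) (by omega) (by omega), x6]
  · rw [upd_ne (by omega), upd_ne (by omega), upd_ne (by omega), upd_same]
  · rw [upd_ne (by omega), upd_same, hs, ha]
  · rw [upd_same, ← hs]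
    have hsne : s ≠ 0 := left_ne_zero_of_mul sane
    have dne2 : ((1 / e : ℝ) : ℂ) + t.tb.c m * T ≠ 0 := by
      intro h0
      apply dne
      have h3 : t.tb.c m * (T * e) + 1 = (((1 / e : ℝ) : ℂ) + t.tb.c m * T) * e := by
        push_cast
        field_simp
        ring
      rw [h3, h0, zero_mul]
    have h3 : t.tb.c m * (T * e) + 1 = (((1 / e : ℝ) : ℂ) + t.tb.c m * T) * e := by
      push_cast
      field_simp
      ring
    unfold Tb.rT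
    rw [← ha, inv_div, h3]
    field_simp
  · rw [← ha]
    exact ane
  · have Qne := ne_of_re hN3.Qre
    obtain ⟨p, hp⟩ : ∃ p, p = (T + (Real.sinh κ : ℂ))⁻¹ *
      ((Real.exp (-κ) : ℂ) * ((Real.cosh κ : ℂ) + T)) := ⟨_, rfl⟩
    have hp1 := p_TsK Qne (u := Tb.uT κ T) rfl TKne (p := p) hp
    have e72 := hL6.fp
    have e73 := hL6.fpd
    have e74 := hL6.fs
    have e69 := hL6.fD2
    have k72 : σ6 72 = p * (e : ℂ)⁻¹ := by
      rw [e72, hp, mul_inv]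
      ring
    have h74 := ne_of_re hL6.sre
    intro h0
    apply h74
    rw [e74, e73, k72, e69]
    have h9 : ((1 / e : ℝ) : ℂ) * (p * (e : ℂ)⁻¹ * ((T1 - ((Real.cosh κ : ℂ) - Tb.uT κ T)) * e * e)) + 1
        = p * (T1 - ((Real.cosh κ : ℂ) - Tb.uT κ T)) + 1 := by
      push_cast
      field_simp
    rw [h9]
    linear_combination -hp1 + p * h0

end Pool.Agent.helper4.NS
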