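import Pool.Agent.helper4.NS.SpecDef

/-!
# Meaning of the head
-/

namespace Pool.Agent.helper4.NS

open Complex
open Pool.Agent.helper31.IA (Z get)
open Pool.Agent.helper12.RS
open Pool.Agent.helper63.NF

/-- **The head.** -/
theorem headS_spec {t : TD} {e κ : ℝ} (he : 0 < e) {b : E} {σ : ℕ → ℂ}
    {Q : (ℕ → ℂ) → Prop} (h0 : σ 0 = ((1 / e : ℝ) : ℂ))
    (hb : b.ev (upd σ 22 1) = ((e * κ / 2 : ℝ) : ℂ))
    (h : Sem (headS t b) σ Q) : ∃ τ, Q τ ∧ HFS t e κ τ ∧ τ 1 = σ 1 ∧ τ 2 = σ 2 ∧ τ 3 = σ 3 := by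
  have he0 : (e : ℂ) ≠ 0 := by exact_mod_cast he.ne'
  have h := sem_append _ _ _ h
  obtain ⟨-, h⟩ := sem_set h (x := 1) one_val
  obtain ⟨-, h⟩ := sem_set h hb
  obtain ⟨-, h⟩ := sem_set h (x := ((κ / 2 : ℝ) : ℂ)) (by
    simp [E.ev, upd, h0]
    field_simp)
  obtain ⟨-, h⟩ := sem_set h (x := (κ : ℂ)) (by
    simp [E.ev, upd, two_val]
    ring)
  obtain ⟨-, h⟩ := sem_set h (x := (Real.exp (κ / 2) : ℂ)) (by simp [E.ev, upd])
  obtain ⟨-, h⟩ := sem_set h (x := (Real.exp (-(κ / 2)) : ℂ)) (by simp [E.ev, upd])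
  obtain ⟨-, h⟩ := sem_set h (x := (Real.exp κ : ℂ)) (by
    simp only [E.ev, upd, ite_true]
    simp
    rw [← Complex.exp_add]
    congr 1
    ring)
  obtain ⟨-, h⟩ := sem_set h (x := (Real.exp (-κ) : ℂ)) (by
    simp [E.ev, upd]
    rw [← Complex.exp_add]
    congr 1
    ring)
  obtain ⟨-, h⟩ := sem_set h (x := (Real.exp (-κ) : ℂ) ^ 2) (by
    simp [E.ev, upd]
    ring)
  obtain ⟨-, h⟩ := sem_set h (x := (Real.cosh κ : ℂ)) (by
    simp only [E.ev, upd]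
    simp [half_val]
    rw [Complex.cosh]
    ring)
  obtain ⟨-, h⟩ := sem_set h (x := ((e * κ : ℝ) : ℂ)) (by
    simp [E.ev, upd, two_val]
    ring)
  obtain ⟨-, h⟩ := sem_set h (x := ((κ / 2 : ℝ) : ℂ) ^ 2) (by
    simp [E.ev, upd]
    ring)
  obtain ⟨-, hlt, h⟩ := h
  have hlt' : ‖((κ / 2 : ℝ) : ℂ) ^ 2‖ < (68719476736 : ℕ) / 2 ^ 40 := by
    have : ∀ w : ℕ → ℂ, (E.r 15).ev (upd w 15 (((κ / 2 : ℝ) : ℂ) ^ 2)) = ((κ / 2 : ℝ) : ℂ) ^ 2 :=
      fun w => upd_same _ _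
    rwa [this] at hlt
  obtain ⟨-, -, h⟩ := h
  have h := h (SC ((κ / 2 : ℝ) : ℂ)) (SC_mem (upd_same _ _) rfl hlt')
  have hS : ((κ / 2 : ℝ) : ℂ) * SC ((κ / 2 : ℝ) : ℂ) = (Real.sinh (κ / 2) : ℂ) := by
    rw [mul_SC, Complex.ofReal_sinh]
  obtain ⟨S, hSd⟩ : ∃ S, S = SC ((κ / 2 : ℝ) : ℂ) := ⟨_, rfl⟩
  rw [← hSd] at h hS
  obtain ⟨-, h⟩ := sem_set h (x := (Hh κ : ℂ) * e) (by
    show upd _ _ _ 14 * upd _ _ _ 16 = _
    rw [upd_same, upd_ne (by omega), upd_ne (by omega), upd_same]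
    unfold Hh
    push_cast at hS ⊢
    linear_combination (2 * (e : ℂ)) * hS)
  have hsh : (Real.sinh κ : ℂ) = (Hh κ : ℂ) * (Real.cosh (κ / 2) : ℂ) := by
    rw [← ofReal_mul]
    congr 1
    unfold Hh
    rw [← Real.sinh_two_mul]
    congr 1
    ring
  obtain ⟨-, h⟩ := sem_set h (x := (Real.sinh κ : ℂ) * e) (by
    rw [hsh]
    simp only [E.ev, upd]
    simp [half_val]
    rw [Complex.cosh]
    ring)
  obtain ⟨-, h⟩ := sem_set h (x := (Hh κ : ℂ) ^ 2 * e) (by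
    simp only [E.ev, upd]
    simp [h0]
    field_simp)
  obtain ⟨-, h⟩ := sem_set h (x := ((Real.sinh κ : ℂ) * e) ^ 2) (by
    simp only [E.ev, upd]
    simp
    ring)
  obtain ⟨-, h⟩ := sem_set h (x := (Real.sinh κ : ℂ) ^ 2 * e) (by
    simp only [E.ev, upd]
    simp [h0]
    field_simp)
  obtain ⟨-, h⟩ := sem_set h (x := (Real.exp (-(e * κ)) : ℂ)) (by
    simp [E.ev, upd])
  obtain ⟨-, h⟩ := sem_set h (x := (Real.exp (-(e * κ)) : ℂ) + 1) (by simp [E.ev, upd])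
  obtain ⟨-, -, h⟩ := h
  obtain ⟨-, h⟩ := sem_set h (x := (LM e κ : ℂ)) (by
    show log (upd _ 24 _ 24) = _
    rw [upd_same]
    unfold LM
    rw [Complex.ofReal_log (by positivity)]
    push_cast
    rw [add_comm])
  obtain ⟨-, h⟩ := sem_set h (x := t.tb.de e) (by
    simp [E.ev, upd, h0, zi_val, Tb.de, TD.tb])
  have hm10 : ∀ i, i < 128 → i ≠ mreg 1 0 := fun i hi => mreg_ne_lt hi
  have hm01 : ∀ i, i < 128 → i ≠ mreg 0 1 := fun i hi => mreg_ne_lt hi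
  obtain ⟨-, h⟩ := sem_set h (x := t.tb.db e κ) (by
    by_cases hbc : t.bc = 0
    · have h1 : (t.bc == 0) = true := by simpa using hbc
      rw [h1, cond_true]
      show upd _ _ _ 4 = _
      rw [upd_ne (hm10 4 (by omega))]
      simp [upd, Tb.db, TD.tb, hbc, cv_zero]
    · have h1 : (t.bc == 0) = false := by simpa using hbc
      rw [h1, cond_false]
      show upd _ _ _ 4 - (zi t.bc).val = _
      rw [upd_ne (hm10 4 (by omega))]
      simp [upd, Tb.db, TD.tb, zi_val])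
  obtain ⟨τ, hQ, hM, hτ⟩ := sem_monos' (u := t.tb.de e) (v := t.tb.db e κ)
    (by rw [upd_ne (by intro hh; have := mreg_inj hh; omega), upd_same]) (upd_same _ _) h
  have key : ∀ i, i < 128 → τ i = _ := fun i hi => by
    rw [hτ i (fun a b => mreg_ne_lt hi), upd_ne (hm01 i hi), upd_ne (hm10 i hi)]
  refine ⟨τ, hQ, ⟨?_, ?_, ?_, ?_, ?_, ?_, ?_, ?_, ?_, ?_, ?_, ?_, ?_, ?_, ?_, ?_, ?_, ?_, ?_, hM⟩,
    ?_, ?_, ?_⟩
  · rw [key 0 (by omega)]; simp [upd, h0]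
  · rw [key 4 (by omega)]; simp [upd]
  · rw [key 7 (by omega)]; simp [upd]
  · rw [key 8 (by omega)]; simp [upd]
  · rw [key 9 (by omega)]; simp [upd]
  · rw [key 10 (by omega)]; simp [upd]
  · rw [key 11 (by omega)]; simp [upd]
  · rw [key 12 (by omega)]; simp [upd]
  · rw [key 13 (by omega)]; simp [upd]
  · rw [key 14 (by omega)]; simp [upd]
  · rw [key 17 (by omega)]; simp [upd]
  · rw [key 18 (by omega)]; simp [upd]
  · rw [key 19 (by omega)]; simp [upd]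
  · rw [key 20 (by omega)]; simp [upd]
  · rw [key 21 (by omega)]; simp [upd]
  · rw [key 22 (by omega)]; simp [upd]
  · rw [key 23 (by omega)]; simp [upd]
  · rw [key 24 (by omega)]; simp [upd]
  · rw [key 25 (by omega)]; simp [upd]
  · rw [key 1 (by omega)]; simp [upd]
  · rw [key 2 (by omega)]; simp [upd]
  · rw [key 3 (by omega)]; simp [upd]

end Pool.Agent.helper4.NS
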