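import Pool.Agent.helper4.NS.SpecNear
import Pool.Agent.helper63.NF.SpecMid
import Pool.Agent.helper12.RS.MidQP

/-!
# Meaning of the program of a middle node
-/

namespace Pool.Agent.helper4.NS

open Complex
open Pool.Agent.helper31.IA (Z get)
open Pool.Agent.helper12.RS
open Pool.Agent.helper63.NF

/-- the facts of the node -/
theorem NRS.nodePM {t : TD} {e κ : ℝ} (he : 0 < e) {m : ℕ} {T x T1 : ℂ} {σ : ℕ → ℂ}
    (h : NRS t e κ m T x T1 σ) (hM : t.tb.MT e κ m T ≠ 0) : NodeP t.tb e κ m T := by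
  refine ⟨h.nd.Qre, ?_, h.nd.pol, h.r_ne he, hM, h.nd.M1⟩
  have he0 : (e : ℂ) ≠ 0 := by exact_mod_cast he.ne'
  have h1 := ne_of_re h.lk.dre
  intro h0
  apply h1
  have h3 : t.tb.c m * (T * e) + 1 = (((1 / e : ℝ) : ℂ) + t.tb.c m * T) * e := by
    push_cast
    field_simp
    ring
  rw [h3, h0, zero_mul]

/-- the facts of the link -/
theorem NRS.stepPM {t : TD} {e κ : ℝ} {m : ℕ} {T x T1 : ℂ} {σ : ℕ → ℂ}
    (h : NRS t e κ m T x T1 σ) (hre : 0 < ((Real.cosh κ : ℂ) + T1).re) :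
    StepP t.tb e κ (dS t (m + 1) e κ) (t.Y (m + 1) e) m T x T1 :=
  ⟨h.lk.F, h.lk.g, h.lk.S, hre, h.TK1, h.disp, h.cut⟩

/-- the next state and the state, `74` of the program -/
theorem NRS.TK1_eq {t : TD} {e κ : ℝ} (he : 0 < e) {m : ℕ} {T x T1 : ℂ} {σ : ℕ → ℂ}
    (h : NRS t e κ m T x T1 σ) :
    T1 + (Real.sinh κ : ℂ) = (Real.exp κ : ℂ) * Tb.uT κ T * σ 74 * (T + (Real.sinh κ : ℂ)) := by
  have he0 : (e : ℂ) ≠ 0 := by exact_mod_cast he.ne'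
  have Qne := ne_of_re h.nd.Qre
  have TKne : T + (Real.sinh κ : ℂ) ≠ 0 := ne_of_re h.lk.TKre
  obtain ⟨p, hp⟩ : ∃ p, p = (T + (Real.sinh κ : ℂ))⁻¹ *
    ((Real.exp (-κ) : ℂ) * ((Real.cosh κ : ℂ) + T)) := ⟨_, rfl⟩
  have hp1 := p_TsK Qne (u := Tb.uT κ T) rfl TKne (p := p) hp
  have k72 : σ 72 = p * (e : ℂ)⁻¹ := by
    rw [h.lk.fp, hp, mul_inv]
    ring
  have k74 : σ 74 = p * (T1 - ((Real.cosh κ : ℂ) - Tb.uT κ T)) + 1 := by
    rw [h.lk.fs, h.lk.fpd, k72, h.lk.fD2]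
    push_cast
    field_simp
  have h4 := exp_qi κ
  have h5 := c_K κ
  have h1 := q_TK κ T
  have hu : Tb.uT κ T * ((Real.cosh κ : ℂ) + T) = 1 := by
    unfold Tb.uT
    exact inv_mul_cancel₀ Qne
  have h6 : (Real.exp κ : ℂ) * Tb.uT κ T * (T + (Real.sinh κ : ℂ)) =
      (Real.cosh κ : ℂ) - Tb.uT κ T + (Real.sinh κ : ℂ) := by
    linear_combination (-Tb.uT κ T) * h1 + (Real.exp κ : ℂ) * hu - h5
  rw [k74]
  calc T1 + (Real.sinh κ : ℂ) = ((Real.cosh κ : ℂ) - Tb.uT κ T + (Real.sinh κ : ℂ)) *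
        (p * (T1 - ((Real.cosh κ : ℂ) - Tb.uT κ T)) + 1) := by
        linear_combination -(T1 - ((Real.cosh κ : ℂ) - Tb.uT κ T)) * hp1
    _ = _ := by
        rw [← h6]
        ring

/-- a middle node, closing in the product form -/
theorem midS_pt {t : TD} (hok : t.ok = true) {e κ : ℝ} (he : 0 < e) (hκ : 0 < κ) {m : ℕ}
    {σ : ℕ → ℂ} {Q : (ℕ → ℂ) → Prop} {T x : ℂ} (h0 : σ 0 = ((1 / e : ℝ) : ℂ))
    (h1 : σ 1 = ((e * κ / 2 : ℝ) : ℂ)) (h2 : σ 2 = T * e) (h3 : σ 3 = x)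
    (h : Sem (PSm t (m + 1)) σ Q) : ∃ T1 σ1, NRS t e κ m T x T1 σ1 ∧
      StepP t.tb e κ (dS t (m + 1) e κ) (t.Y (m + 1) e) m T x T1 ∧
      0 < (1 + exp (-(t.tb.lT e κ T1))).re ∧
      ∀ x' : ℂ, ‖x'‖ ≤ 1 → ‖clo t.tb e κ m T T1 x x'‖ < θ0 := by
  have he0 : (e : ℂ) ≠ 0 := by exact_mod_cast he.ne'
  have h := sem_append _ _ _ h
  have h := sem_append _ _ _ h
  obtain ⟨σ1, T1, h, hR⟩ := nerS_spec hok he hκ h0 h1 h2 h3 h
  obtain ⟨σ2, h, f2, hN⟩ := nodS_spec hok he (Or.inr rfl) (by omega) hR.hF hR.hH hR.lk.f70 h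
  refine ⟨T1, σ1, hR, hR.stepPM hN.Qre, hN.M1, ?_⟩
  intro x' hx'
  have hF2 : HFS t e κ σ2 := hR.hF.of_eq (fun i hi _ _ _ _ => f2 i (by omega)) (fun i j => f2 _ (by
    have := mreg_ge i j
    omega))
  have n27 : σ2 27 = Tb.uT κ T := by rw [f2 27 (by omega)]; exact hR.nd.u
  have n30 : σ2 30 = t.tb.lT e κ T - ((e * κ : ℝ) : ℂ) := by rw [f2 30 (by omega)]; exact hR.nd.l2
  have n34 : σ2 34 = lc (t.tb.lT e κ T) := by rw [f2 34 (by omega)]; exact hR.nd.m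
  have n88 : σ2 88 = lc (t.tb.lT e κ T1) := hN.m
  have n86 : σ2 86 = exp (-(t.tb.lT e κ T1)) := hN.M
  have n3 : σ2 3 = x := by rw [f2 3 (by omega)]; exact hR.fx
  have n70 : σ2 70 = T1 * e := by rw [f2 70 (by omega)]; exact hR.lk.f70
  have n75 := hR.lk.fLQ
  rw [← f2 75 (by omega)] at n75
  have n47 := hR.lk.fden
  rw [← f2 47 (by omega)] at n47
  have hK1 := hR.TK1_eq he
  rw [← f2 74 (by omega)] at hK1
  have n98 := hR.fia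
  rw [← f2 98 (by omega)] at n98
  have n96 := hR.fM
  rw [← f2 96 (by omega)] at n96
  have n99 := hR.fir
  rw [← f2 99 (by omega)] at n99
  have n22 := hF2.one
  have n10 := hF2.q
  have n7 := hF2.k
  obtain ⟨den', hden⟩ : ∃ d, d = t.tb.c (m + 1) * (T1 * e) + 1 := ⟨_, rfl⟩
  obtain ⟨-, h⟩ := sem_set h (x := den') (by
    show (zi (nth 0 t.c (m + 1 + 1))).val * σ2 70 + σ2 22 = _
    rw [zi_val, n70, n22, hden]
    rfl)
  obtain ⟨-, p1, h⟩ := h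
  have dre : 0 < den'.re := p1
  have dne' := ne_of_re dre
  obtain ⟨-, h⟩ := sem_set h (x := den'⁻¹) (by
    show (upd σ2 100 _ 100)⁻¹ = _
    rw [upd_same])
  obtain ⟨a', ha'⟩ : ∃ a, a = t.tb.an e κ (m + 1) := ⟨_, rfl⟩
  obtain ⟨a, ha⟩ : ∃ a, a = t.tb.an e κ m := ⟨_, rfl⟩
  obtain ⟨s, hs⟩ : ∃ s, s = t.s2 (m + 1) := ⟨_, rfl⟩
  obtain ⟨r, hr⟩ : ∃ r, r = t.tb.rT e κ m T := ⟨_, rfl⟩
  obtain ⟨r', hr'⟩ : ∃ r, r = t.tb.rT e κ (m + 1) T1 := ⟨_, rfl⟩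
  have hsv : (scZ t (m + 1)).val = s := by
    rw [hs]
    exact zn_val _
  have sne : s ≠ 0 := by rw [hs]; exact t.s2_ne _
  have ane : a ≠ 0 := by rw [ha]; exact hR.ane
  have rne : r ≠ 0 := by rw [hr]; exact hR.r_ne he
  have hM : MI t.L (t.tb.de e) (t.tb.db e κ) (upd (upd σ2 100 den') 101 den'⁻¹) := by
    have k : ∀ i j, upd (upd σ2 100 den') 101 den'⁻¹ (mreg i j) = σ2 (mreg i j) := fun i j => by
      have := mreg_ge i j
      rw [upd_ne (by omega), upd_ne (by omega)]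
    exact ⟨by rw [k, hF2.mi.hu], by rw [k, hF2.mi.hv], fun i j hij => by rw [k, hF2.mi.hm i j hij]⟩
  have hav : (aQ t (m + 1 + 1)).ev (upd (upd σ2 100 den') 101 den'⁻¹) = a' := by
    rw [aQ_ev hM (by rw [upd_ne (by omega), upd_ne (by omega), n7]), ha']
    rfl
  obtain ⟨-, h⟩ := sem_set h (x := r' / r) (by
    show (((scZ t (m + 1)).val * (aQ t (m + 1 + 1)).ev (upd (upd σ2 100 den') 101 den'⁻¹)) *
      (upd (upd σ2 100 den') 101 den'⁻¹ 98)) * ((upd (upd σ2 100 den') 101 den'⁻¹ 10 *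
      upd (upd σ2 100 den') 101 den'⁻¹ 27) * upd (upd σ2 100 den') 101 den'⁻¹ 74) *
      ((upd (upd σ2 100 den') 101 den'⁻¹ 47) * (upd (upd σ2 100 den') 101 den'⁻¹ 101)) = _
    rw [hav, hsv, upd_same]
    rw [upd_ne (by omega), upd_ne (by omega), upd_ne (by omega), upd_ne (by omega),
      upd_ne (by omega), upd_ne (by omega), upd_ne (by omega), upd_ne (by omega),
      upd_ne (by omega), upd_ne (by omega), n98, n10, n27, n47, ← hs, ← ha, hr, hr']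
    unfold Tb.rT
    rw [← ha, ← ha', hK1]
    have d1 := ne_of_re hR.lk.dre
    have d2 : T + (Real.sinh κ : ℂ) ≠ 0 := ne_of_re hR.lk.TKre
    have e3 : t.tb.c m * (T * e) + 1 = (((1 / e : ℝ) : ℂ) + t.tb.c m * T) * e := by
      push_cast
      field_simp
      ring
    have e4 : den' = (((1 / e : ℝ) : ℂ) + t.tb.c (m + 1) * T1) * e := by
      rw [hden]
      push_cast
      field_simp
      ring
    obtain ⟨D, hD⟩ : ∃ D, D = ((1 / e : ℝ) : ℂ) + t.tb.c m * T := ⟨_, rfl⟩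
    obtain ⟨D', hD'⟩ : ∃ D, D = ((1 / e : ℝ) : ℂ) + t.tb.c (m + 1) * T1 := ⟨_, rfl⟩
    rw [← hD] at e3
    rw [← hD'] at e4
    rw [← hD, ← hD', e3, e4]
    have d3 : D ≠ 0 := by
      rintro h9
      rw [e3, h9, zero_mul] at d1
      exact d1 rfl
    have d4 : D' ≠ 0 := by
      rintro h9
      rw [e4, h9, zero_mul] at dne'
      exact dne' rfl
    field_simp)
  obtain ⟨l, hl⟩ : ∃ l, l = t.tb.lT e κ T := ⟨_, rfl⟩
  obtain ⟨l', hl'⟩ : ∃ l, l = t.tb.lT e κ T1 := ⟨_, rfl⟩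
  rw [← hl] at n30 n34
  rw [← hl'] at n88 n86
  obtain ⟨Lq, hLq⟩ : ∃ L, L = (e : ℂ) * log ((Real.cosh κ : ℂ) + T1) := ⟨_, rfl⟩
  rw [← hLq] at n75
  obtain ⟨E0, hE0⟩ : ∃ E, E = exp (l + lc l - lc l' - Lq) := ⟨_, rfl⟩
  obtain ⟨-, h⟩ := sem_set h (x := E0) (by
    simp only [E.ev, upd, Nat.reduceEqDiff, reduceIte]
    rw [n30, n34, n88, n75, hE0]
    congr 1
    ring)
  obtain ⟨-, -, h⟩ := h
  obtain ⟨M, hMd⟩ : ∃ M, M = t.tb.MT e κ m T := ⟨_, rfl⟩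
  rw [← hMd] at n96
  have h := h (-(M * E0 * exp (-l') * (r' / r) * x')) (by
    simp only [E.ev, upd, Nat.reduceEqDiff, reduceIte]
    rw [zz_val, sub_zero, norm_neg, n96, n86, norm_mul]
    calc ‖M * E0 * exp (-l') * (r' / r)‖ * ‖x'‖ ≤ ‖M * E0 * exp (-l') * (r' / r)‖ * 1 :=
          mul_le_mul_of_nonneg_left hx' (norm_nonneg _)
      _ = _ := mul_one _)
  obtain ⟨-, p2, -⟩ := h
  simp only [E.ev, upd, Nat.reduceEqDiff, reduceIte] at p2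
  rw [hsv, n3, n22, n96] at p2
  unfold clo
  rw [← hr', ← hl, ← hl', ← hr, ← hMd, ← hLq, ← hE0]
  have e2 : x - M * (x - (1 - E0 * (1 + exp (-l') * (r' * x'))) / r) =
      x * (1 - M) + M * (s * (1 - E0) * σ2 99) + -(M * E0 * exp (-l') * (r' / r) * x') := by
    have e3 : s * (1 - E0) * σ2 99 = (1 - E0) * r⁻¹ := by
      rw [← hs, ← hr] at n99
      linear_combination (1 - E0) * n99
    rw [e3]
    field_simp
    ring
  rw [e2]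
  exact p2

/-- **Middle nodes, product form.** -/
theorem midQS_of {t : TD} (hok : t.ok = true) {e κ : ℝ} (he : 0 < e) (hκ : 0 < κ) {m : ℕ} {T : ℂ}
    (h : ∀ x : ℂ, ‖x‖ ≤ 1 → ∃ σ : ℕ → ℂ, σ 0 = ((1 / e : ℝ) : ℂ) ∧ σ 1 = ((e * κ / 2 : ℝ) : ℂ) ∧
      σ 2 = T * e ∧ σ 3 = x ∧ Sem (PSm t (m + 1)) σ fun _ => True) :
    MidQ t.tb e κ θ0 (dS t (m + 1) e κ) (t.Y (m + 1) e) m T := by
  refine ⟨?_, ?_⟩
  · obtain ⟨σ, h0, h1, h2, h3, hs⟩ := h 1 (by simp)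
    obtain ⟨T1, σ1, hR, hS, -, hC⟩ := midS_pt hok he hκ h0 h1 h2 h3 hs
    refine hR.nodePM he ?_
    intro hM
    have h4 := hC 0 (by simp)
    unfold clo at h4
    rw [hM, zero_mul, sub_zero, norm_one] at h4
    exact absurd (h4.trans θ0_lt) (lt_irrefl _)
  · intro x hx
    obtain ⟨σ, h0, h1, h2, h3, hs⟩ := h x hx
    obtain ⟨T1, σ1, hR, hS, hM, hC⟩ := midS_pt hok he hκ h0 h1 h2 h3 hs
    exact ⟨T1, hS, hM, hC⟩

/-- **Middle nodes.** -/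
theorem midPS_of {t : TD} (hok : t.ok = true) {e κ : ℝ} (he : 0 < e) (hκ : 0 < κ) {m : ℕ} {T : ℂ}
    (h : ∀ x : ℂ, ‖x‖ ≤ 1 → ∃ σ : ℕ → ℂ, σ 0 = ((1 / e : ℝ) : ℂ) ∧ σ 1 = ((e * κ / 2 : ℝ) : ℂ) ∧
      σ 2 = T * e ∧ σ 3 = x ∧ Sem (PSm t (m + 1)) σ fun _ => True) :
    MidP t.tb e κ θ0 (dS t (m + 1) e κ) (t.Y (m + 1) e) m T :=
  midP_of_midQ (midQS_of hok he hκ h)

end Pool.Agent.helper4.NS
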