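import Pool.Agent.helper63.NF.Prog

/-!
# The programs of the near field, second family (state `T/ε`)

Registers: `0` ε, `1` b or its parameter, `2` the variable, `3` x, `4` b, `5` 1/ε, `6` κ/2, `7` κ,
`8` exp (κ/2), `9` exp (-κ/2), `10` exp κ, `11` exp (-κ), `12` exp (-2κ), `13` cosh κ, `14` 2b,
`15` (κ/2)², `16` sinh (κ/2)/(κ/2), `17` z = 2 sinh (κ/2)/ε, `18` sinh κ/ε, `19` ε z²,
`20` (sinh κ/ε)², `21` ε (sinh κ/ε)², `22` 1, `23` exp (-2b), `24` 1 + exp (-2b), `25` its logarithm;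
`128 + ..` monomials.
-/

namespace Pool.Agent.helper4.NS

open Pool.Agent.helper31.IA (Z)
open Pool.Agent.helper31.IX (Op)
open Pool.Agent.helper63.NF

/-- scaling, in two steps for large constants -/
def scE (a : ℤ) (e : E) : E :=
  bif Nat.ble a.natAbs 4502500115742720 then .sc (zi a) e else
  bif a % 2048 == 0 then .sc (zi (a / 2048)) (.sc (zi 2251799813685248) e) else .sc (zi a) e

/-- the terms of a row -/
def rowS (L : List (ℕ × ℕ)) (i : ℕ) : ℕ → List ℤ → Option E → Option E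
  | _, [], t => t
  | j, a :: r, t => rowS L i (j + 1) r (bif (Nat.beq i 0 && Nat.beq j 0) || (a == 0) then t else
      addO t (scE a (mE L i j)))

def rowsS (L : List (ℕ × ℕ)) : ℕ → List (List ℤ) → Option E → Option E
  | _, [], t => t
  | i, r :: s, t => rowsS L (i + 1) s (rowS L i 0 r t)

/-- `a + ∑ c_ij de^i db^j` -/
def q2E (L : List (ℕ × ℕ)) (a : ℤ) (c : List (List ℤ)) : E :=
  match rowsS L 0 c none with
  | none => .c (zi (a + hd2 c))
  | some t => bif (a + hd2 c == 0) then t else .add t (.c (zi (a + hd2 c)))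

/-- `∑ y^k (∑ c_kij de^i db^j)` -/
def q3E (L : List (ℕ × ℕ)) (y : E) (c : List (List (List ℤ))) : E := hornE y (c.map (q2E L 0))

/-- the coefficients of `1/2 + H` -/
def hqE (L : List (ℕ × ℕ)) (k : ℕ) (r : List (List ℤ)) : E :=
  q2E L (bif Nat.beq k 0 then 549755813888 else 0) r

/-- statements for the coefficients -/
def hsQ (L : List (ℕ × ℕ)) : ℕ → List (List (List ℤ)) → List St
  | _, [] => []
  | k, r :: t => bif isC (hqE L k r) then hsQ L (k + 1) t else
      .set (hreg k) (hqE L k r) :: hsQ L (k + 1) t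

/-- the coefficients, in registers if they are not constant -/
def hlQ (L : List (ℕ × ℕ)) : ℕ → List (List (List ℤ)) → List E
  | _, [] => []
  | k, r :: t => (bif isC (hqE L k r) then hqE L k r else .r (hreg k)) :: hlQ L (k + 1) t

/-- `1 + g/6 + g²/120` -/
def sncE (g : E) : E :=
  (((E.sc (zi 9162596898) g).add (E.c (zi 183251937962))).mul g).add (E.c one)

/-- radius `2^-24` -/
def bl : E :=
  E.c (zi 65536)

/-- `b` from the parameter -/
def bS (t : TD) : E :=
  match t.bm with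
  | none => E.r 1
  | some (m2, m1, m0, b1) =>
    ((E.r 1).mul ((((scE m2 (E.r 0)).add (E.c (zi m1))).mul (E.r 0)).add (E.c (zi m0)))).add (E.c (zi b1))

/-- the head -/
def headS (t : TD) (b : E) : List St :=
  [St.set 22 (E.c one), St.set 4 b, St.set 6 ((E.r 0).mul (E.r 4)), St.set 7 (E.sc two (E.r 6)),
      St.set 8 (E.r 6).exp, St.set 9 (E.r 6).neg.exp, St.set 10 ((E.r 8).mul (E.r 8)),
      St.set 11 ((E.r 9).mul (E.r 9)), St.set 12 ((E.r 11).mul (E.r 11)),
      St.set 13 (E.sc half ((E.r 10).add (E.r 11))), St.set 14 (E.sc two (E.r 4)),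
      St.set 15 ((E.r 6).mul (E.r 6)), St.lt (E.r 15) 68719476736, St.rball 16 (sncE (E.r 15)) bl,
      St.set 17 ((E.r 14).mul (E.r 16)), St.set 18 ((E.r 17).mul (E.sc half ((E.r 8).add (E.r 9)))),
      St.set 19 ((E.r 0).mul ((E.r 17).mul (E.r 17))), St.set 20 ((E.r 18).mul (E.r 18)),
      St.set 21 ((E.r 0).mul (E.r 20)), St.set 23 (E.r 14).neg.exp, St.set 24 ((E.r 23).add (E.r 22)),
      St.pos (E.r 24), St.set 25 (E.r 24).log, St.set (mreg 1 0) ((E.r 0).sub (E.c (zi t.ec))),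
      St.set (mreg 0 1) (bif t.bc == 0 then E.r 4 else (E.r 4).sub (E.c (zi t.bc)))] ++
    monos [] t.L

/-- `1/ε` -/
def ieS : List St :=
  [St.pos (E.r 0), St.set 5 (E.r 0).inv]

/-- the head with the coefficients of `H` -/
def headQ (t : TD) (b : E) : List St :=
  headS t b ++ hsQ t.L 0 t.H

/-- the pole pair, `y` in register `y` -/
def poleQ (t : TD) (y : ℕ) (B : ℕ) : List St :=
  match t.pol with
  | none => []
  | some p =>
    [St.set B
        ((E.r y).sub
          (bif p.w1 == 0 then E.c (zi p.wr) else (E.sc (zi p.w1) (E.r (mreg 1 0))).add (E.c (zi p.wr)))),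
      St.pos (E.r B), St.set (B + 1) (E.r B).inv, St.set (B + 2) ((E.r B).add (E.sc (zi p.wi2) (E.r (B + 1)))),
      St.pos (E.r (B + 2)), St.set (B + 3) (E.r (B + 2)).inv,
      St.set (B + 4) (((q2E t.L 0 p.rho).add (mulS (E.r (B + 1)) (q2E t.L 0 p.sig))).mul (E.r (B + 3)))]

/-- `1/2 + H` -/
def HQ (t : TD) (y : ℕ) (B : ℕ) : E :=
  hornE (E.r y)
    (exE
      (match t.pol with
      | none => none
      | some val => some (E.r (B + 4)))
      (hlQ t.L 0 t.H))

/-- a node; `T/ε` in register `z`, values in `B ..`: `0` Q, `1` u, `2` f, `3` y, `4` l - 2b,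
`5` l, `6` exp (-l), `7` 1 + exp (-l), `8` its logarithm, `11..` the pole pair -/
def nodS (t : TD) (z : ℕ) (B : ℕ) : List St :=
  [St.set B (((E.r 0).mul (E.r z)).add (E.r 13)), St.pos (E.r B), St.set (B + 1) (E.r B).inv,
        St.set (B + 2)
          (((E.r 11).mul (E.r (B + 1))).mul (((E.r z).sub (E.r 18)).mul ((E.r 11).add (E.r (B + 1))))),
        St.set (B + 3) ((E.r (B + 2)).add (E.sc two ((E.r 11).mul (E.r 18))))] ++
      poleQ t (B + 3) (B + 11) ++
    [St.set (B + 4) ((E.r (B + 2)).mul (HQ t (B + 3) (B + 11))), St.set (B + 5) ((E.r (B + 4)).add (E.r 14)),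
      St.set (B + 6) (E.r (B + 5)).neg.exp, St.set (B + 7) ((E.r (B + 6)).add (E.r 22)), St.pos (E.r (B + 7)),
      St.set (B + 8) (E.r (B + 7)).log]

/-- `a_n` -/
def aQ (t : TD) (n : ℕ) : E :=
  have p := q2E t.L 0 (nth [] t.a n);
  bif nth 0 t.j n == 0 then p else mulR p (E.sc (zi (nth 0 t.j n)) (E.r 7)).neg.exp

/-- the link after node `n`, `T/ε` in register `2`: `45` T + K, `46` a, `47` den, `48` 1/den, `49` r,
`50` r x, `51` `53` logarithms, `54` ww, `55` aa, `56` ε ww/2, `57` its square, `58` sinhc,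
`59` Wn, `60` En, `61` Ts, `62` Qs, `63` 1/Qs, `64` N, `65` ε/Qs, `66` radicand, `67` its logarithm,
`68` root + 1, `69` D2, `70` T' -/
def lnkS (t : TD) (n : ℕ) : List St :=
  [St.set 45 ((E.r 2).add (E.r 18)), St.set 46 (aQ t n),
        St.set 47 ((E.sc (zi (nth 0 t.c n)) (E.r 2)).add (E.r 22)), St.pos (E.r 47), St.set 48 (E.r 47).inv,
        St.set 49 (((E.r 45).mul (E.sc two (E.r 46))).mul (E.r 48)), St.set 50 ((E.r 49).mul (E.r 3)),
        St.set 52 ((E.r 22).sub (E.r 50)), St.pos (E.r 52), St.set 51 (E.r 52).log,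
        St.set 52 (((E.r 32).mul (E.r 50)).add (E.r 22)), St.pos (E.r 52), St.set 53 (E.r 52).log,
        St.set 54 ((E.r 31).add ((E.r 53).sub (E.r 51))),
        St.set 55 (((E.r 30).add (E.sc two ((E.r 34).sub (E.r 25)))).sub ((E.r 51).add (E.r 53))),
        St.set 56 (E.sc half ((E.r 0).mul (E.r 54))), St.set 57 ((E.r 56).mul (E.r 56)),
        St.lt (E.r 57) 68719476736, St.rball 58 (sncE (E.r 57)) bl,
        St.set 59 ((E.r 54).mul ((E.r 56).exp.mul (E.r 58)))] ++
      ieS ++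
    [St.set 60 ((((E.r 0).mul (E.r 55)).exp.sub (E.c one)).mul (E.r 5)),
      St.set 61 ((E.r 27).mul (((E.r 13).mul (E.r 2)).add (E.r 21))),
      St.set 62 (((E.r 0).mul (E.r 61)).add (E.r 13)), St.pos (E.r 62), St.set 63 (E.r 62).inv,
      St.set 64
        (((((E.r 59).mul ((E.r 29).add (E.r 19))).sub (E.sc two ((E.r 61).mul (E.r 61)))).sub
              (E.sc half ((E.r 19).mul (E.r 19)))).add
          ((E.r 19).mul ((E.r 60).mul (((E.r 0).mul (E.r 59)).add (E.c two))))),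
      St.set 65 ((E.r 0).mul (E.r 63)), St.set 66 ((((E.r 65).mul (E.r 65)).mul (E.r 64)).add (E.r 22)),
      St.pos (E.r 66), St.set 67 (E.r 66).log, St.set 68 ((E.sc half (E.r 67)).exp.add (E.r 22)),
      St.pos (E.r 68), St.set 69 (((E.r 64).mul (E.r 63)).mul (E.r 68).inv),
      St.set 70 ((E.r 61).add ((E.r 0).mul (E.r 69)))]

/-- `71` 1/(T + K), `72` p, `73` p D2, `74` 1 + ε p D2, `76` Qs exp (-κ), `75` LQ -/
def lnkT : List St :=
  [St.pos (E.r 45), St.set 71 (E.r 45).inv, St.set 72 ((E.r 71).mul ((E.r 11).mul (E.r 26))),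
    St.set 73 ((E.r 72).mul (E.r 69)), St.set 74 (((E.r 0).mul (E.r 73)).add (E.r 22)), St.pos (E.r 74),
    St.set 76 ((E.r 62).mul (E.r 11)), St.pos (E.r 76),
    St.set 75 (((E.r 76).log.add (E.sc half (E.r 67))).mul (E.r 5))]

/-- displacement -/
def dspS (t : TD) (n : ℕ) : List St :=
  [St.set 77 (q2E t.L 0 (nth [] t.t n)), St.set 78 (E.sc (zn (n + 1)) (E.r 7)).exp, St.pos (E.r 77),
    St.lt ((E.sc two ((E.r 73).mul (E.r 78))).mul (((E.r 72).mul (E.r 74).inv).mul ((E.r 78).mul (E.r 77).inv)))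
      TH]

/-- cut, `T'/ε` in register `z` -/
def ctS (t : TD) (n : ℕ) (z : ℕ) : List St :=
  [St.set 79 ((E.r 20).add (E.c (zi (nth 0 t.y n)))), St.pos (E.r 79),
    St.lt ((((E.r z).mul (E.r z)).sub (E.r 20)).mul (E.r 79).inv) TH]

/-- the part common to all near nodes: `96` M, `97` the scaled a, `98` its inverse, `99` 1/r -/
def nerS (t : TD) (n : ℕ) : List St :=
  headQ t (E.r 1) ++ nodS t 2 26 ++ lnkS t n ++ lnkT ++ dspS t n ++ ctS t n 70 ++
    [St.set 96 (q3E t.L (E.r 29) (nth [] t.M n)), St.set 97 (E.sc (scZ t n) (E.r 46)), St.pos (E.r 97),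
      St.set 98 (E.r 97).inv, St.set 99 (E.sc half (((E.r 47).mul (E.r 71)).mul (E.r 98)))]

/-- middle node -/
def PSm (t : TD) (n : ℕ) : List St :=
  nerS t n ++ nodS t 70 80 ++
    [St.set 100 ((E.sc (zi (nth 0 t.c (n + 1))) (E.r 70)).add (E.r 22)), St.pos (E.r 100),
      St.set 101 (E.r 100).inv,
      St.set 102
        ((((E.sc (scZ t n) (aQ t (n + 1))).mul (E.r 98)).mul (((E.r 10).mul (E.r 27)).mul (E.r 74))).mul
          ((E.r 47).mul (E.r 101))),
      St.set 103 ((((E.r 30).add (E.r 34)).sub (E.r 88)).sub (E.r 75)).exp,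
      St.rball 104 (E.c (zi 0)) ((((E.r 96).mul (E.r 103)).mul (E.r 86)).mul (E.r 102)),
      St.lt
        ((((E.r 3).mul ((E.r 22).sub (E.r 96))).add
              ((E.r 96).mul ((E.sc (scZ t n) ((E.r 22).sub (E.r 103))).mul (E.r 99)))).add
          (E.r 104))
        TH]

/-- `ε A` -/
def frS (t : TD) : List St :=
  match t.far with
  | 2 => [St.set 105 (E.c (zi t.f1))]
  | 3 => [St.set 106 ((E.r 18).add (E.c four)), St.pos (E.r 106), St.set 105 ((E.c two).mul (E.r 106).inv)]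
  | x => [St.set 106 ((E.r 18).add (E.c four)), St.pos (E.r 106), St.set 105 (E.r 106).inv]

/-- `ε A 2 K R/(1 - R)` -/
def xrS (t : TD) : List St :=
  bif t.strip then
    [St.set 107 (E.sc (zi t.x2) (E.r 7)),
      St.set 108 (E.sc (zi t.f3) ((E.sc (zi 184351450112) ((E.r 7).mul (E.r 7))).add (E.r 22))),
      St.set 109 ((((E.sc (zi 183251937280) (E.r 107)).add (E.c half)).mul (E.r 107)).add (E.r 22)),
      St.pos (E.r 109), St.set 110 (((E.r 105).mul (E.r 108)).mul (E.r 109).inv)]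
  else
    [St.set 109 ((E.sc (zi t.x2) (E.r 7)).exp.sub (E.r 22)), St.pos (E.r 109),
      St.set 110 (((E.r 105).mul (E.sc two ((E.r 0).mul (E.r 18)))).mul (E.r 109).inv)]

/-- the last near node -/
def PSl (t : TD) (n : ℕ) : List St :=
  nerS t n ++
          [St.set 80 (((E.r 0).mul (E.r 70)).add (E.r 13)), St.pos (E.r 80),
            St.set 81 ((E.r 80).inv.mul (((E.r 13).mul (E.r 70)).add (E.r 21))),
            St.set 82 (((E.r 0).mul (E.r 81)).add (E.r 13)), St.pos (E.r 82),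
            St.set 83 ((E.r 82).inv.mul (((E.r 13).mul (E.r 81)).add (E.r 21))),
            St.set 84 (((E.r 0).mul (E.r 83)).add (E.r 13)), St.set 85 ((E.r 82).mul (E.r 11)), St.pos (E.r 85),
            St.set 86 ((E.r 23).mul ((E.r 85).log.mul (E.r 5)).neg.exp), St.set 87 ((E.r 84).mul (E.r 11)),
            St.pos (E.r 87), St.set 88 ((E.r 23).mul ((E.r 87).log.mul (E.r 5)).neg.exp),
            St.set 89 ((E.r 88).add (E.r 22)), St.pos (E.r 89), St.set 90 (E.r 89).inv,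
            St.set 91 ((E.r 88).mul (E.r 90)), St.lt (E.r 91) t.B1,
            St.set 92
              (E.sc (zi t.C2)
                (((E.r 0).mul (((E.r 83).mul (E.r 83)).sub (E.r 20))).mul
                  ((E.r 91).mul ((E.r 90).mul (E.r 90)))))] ++
        frS t ++
      xrS t ++
    [St.set 111 ((E.r 110).mul ((E.r 81).add (E.r 18))), St.set 112 (((E.r 30).add (E.r 34)).sub (E.r 75)),
      St.set 113 (((E.r 88).sub (E.r 86)).add (E.r 22)), St.pos (E.r 113),
      St.set 114 ((E.r 112).add ((E.r 113).log.sub (E.r 89).log)).exp,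
      St.set 115 (E.sc (scZ t n) (((E.r 112).exp.mul (E.r 86)).mul (E.r 96))),
      St.set 116
        (((E.r 3).mul ((E.r 22).sub (E.r 96))).add
          ((E.r 96).mul ((E.sc (scZ t n) ((E.r 22).sub (E.r 114))).mul (E.r 99)))),
      St.rball 117 (E.c (zi 0)) (((E.r 115).mul (E.r 90)).mul ((E.r 111).mul (E.r 99))),
      St.rball 118 (E.c (zi 0)) (E.r 111),
      St.rball 119 (E.c (zi 0)) ((((E.r 115).mul (E.r 92)).mul (E.r 99)).mul ((E.r 118).add (E.r 22))),
      St.lt (((E.r 116).add (E.r 117)).add (E.r 119)) TH]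

/-- the first node, `v` in register `2`: `27` φ, `28` l, `29` g, `30` u, `31` a, `32` a u,
`33` 1 + c u, `34` r, `35` exp (-l), `36` 1 + exp (-l), `37` its logarithm, `38` r x, `39` `41`
logarithms, `42` exp (-(LA + lF)/e), `43` exp ((lF - lG)/e), `44` (z/2)², `45` ε²(z/2)²,
`46` Y, `47` its square, `48` D, `49` a0², `50` ε², `51` root -/
def zroS (t : TD) : List St :=
  have y :=
    have y :=
      have y :=
        [St.set 48 ((E.r 44).sub (E.r 47)), St.set 49 ((E.r 42).mul (E.r 42)),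
          St.set 52 ((E.r 22).sub (E.sc four ((E.r 50).mul ((E.r 49).mul (E.r 48))))), St.pos (E.r 52),
          St.set 51 (E.sc half (E.r 52).log).exp];
      St.set 44 (E.sc quart ((E.r 17).mul (E.r 17))) ::
        St.set 45 ((E.r 50).mul (E.r 44)) ::
          St.set 46 (E.sc zI ((E.r 2).mul ((E.r 29).mul ((E.sc (zi 1649267441664) (E.r 45)).add (E.r 22))))) ::
            St.set 47 ((E.r 46).mul (E.r 46)) :: y;
    have y :=
      St.pos (E.r 40) ::
        St.set 41 (E.r 40).log ::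
          St.set 42 ((((E.r 37).sub (E.r 41)).sub ((E.r 4).add (E.r 25))).mul (E.r 0)).exp ::
            St.set 43 ((((E.r 41).sub (E.r 39)).add (E.r 28)).mul (E.r 0)).exp :: y;
    St.set 40 ((E.r 22).sub (E.r 38)) ::
      St.pos (E.r 40) :: St.set 39 (E.r 40).log :: St.set 40 (((E.r 35).mul (E.r 38)).add (E.r 22)) :: y;
  have y :=
    have y :=
      St.set 36 ((E.r 35).add (E.r 22)) ::
        St.pos (E.r 36) :: St.set 37 (E.r 36).log :: St.set 38 ((E.r 34).mul (E.r 3)) :: y;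
    St.set 33 ((E.sc (zi (nth 0 t.c 0)) (E.r 30)).add (E.r 22)) ::
      St.pos (E.r 33) :: St.set 34 ((E.r 32).mul (E.r 33).inv) :: St.set 35 (E.r 28).neg.exp :: y;
  have y :=
    St.set 29 ((E.sc (zi 5703716569088) (E.r 50)).add (E.c (zi 1726576852992))) ::
      St.set 30 ((E.sc four (E.r 4)).add (E.sc four ((E.r 27).mul (E.r 29)))) ::
        St.set 31 (aQ t 0) :: St.set 32 ((E.r 31).mul (E.r 30)) :: y;
  St.set 26 (E.sc zI (E.r 2)) ::
    St.set 27 ((E.r 26).mul ((E.sc half (E.r 26)).add (E.r 22)).inv) ::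
      St.set 28 (hornE (E.r 27) ((q2E t.L 0 t.q0).mul (E.r 4) :: List.map (q2E t.L 0) t.l0)) ::
        St.set 50 ((E.r 0).mul (E.r 0)) :: y

/-- `53` square root of `E0²/E1²` -/
def shQ : List St :=
  [St.set 53 ((E.r 51).sub (E.sc two (((E.r 0).mul (E.r 42)).mul (E.r 46)))), St.pos (E.r 53)]

/-- `54` (S - 1)/ε, `55` S, `56` its logarithm, `57` root + 1, `70` T'/ε -/
def zlnS : List St :=
  [St.set 54
      (E.sc four
        ((E.r 43).mul
          ((((E.r 0).mul (E.r 49)).mul (((E.r 44).mul (E.r 43)).add (E.sc two (E.r 48)))).add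
            ((E.r 42).mul ((E.r 46).mul (E.r 51)))))),
    St.set 55 (((E.r 0).mul (E.r 54)).add (E.r 22)), St.pos (E.r 55), St.set 56 (E.r 55).log,
    St.set 57 ((E.sc half (E.r 56)).exp.add (E.r 22)), St.pos (E.r 57),
    St.set 70 (((E.r 54).mul (E.r 57).inv).sub (E.sc half (E.r 19)))]

/-- the first node -/
def PS0 (t : TD) : List St :=
  headQ t (bS t) ++ zroS t ++ zlnS ++ ctS t 0 70 ++ shQ ++
            [St.set 58 ((E.r 46).mul ((E.r 8).add (E.r 9))), St.set 59 (((E.r 0).mul (E.r 58)).add (E.r 13)),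
              St.pos (E.r 59), St.set 60 (E.r 59).inv,
              St.set 61 ((E.r 60).mul (((E.r 13).mul (E.r 58)).add (E.r 21)))] ++
          ieS ++
        [St.set 62 (((E.r 70).sub (E.r 61)).mul (E.r 5)), St.set 63 ((E.r 58).add (E.r 18)),
          St.set 64 (((E.r 11).mul (E.r 59)).mul (E.r 63).inv), St.set 65 ((E.r 64).mul (E.r 62)),
          St.set 66 (((E.r 0).mul (E.r 65)).add (E.r 22)), St.set 67 (q2E t.L 0 (nth [] t.t 0)),
          St.lt
            (((E.sc two (E.r 65)).mul ((E.r 64).mul (E.r 66).inv)).mul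
              (((E.r 10).mul (E.r 10)).mul (E.r 67).inv))
            TH] ++
      nodS t 70 80 ++
    [St.set 102 ((((E.r 28).add (E.r 37)).sub (E.r 88)).sub ((E.sc half (E.r 56)).mul (E.r 5))).exp,
      St.set 96 (q3E t.L (E.r 27) (nth [] t.M 0)), St.set 99 ((E.r 32).inv.mul (E.r 33)),
      St.set 100 ((E.sc (zi (nth 0 t.c 1)) (E.r 70)).add (E.r 22)), St.pos (E.r 100),
      St.set 103 (((E.sc two (aQ t 1)).mul ((E.r 70).add (E.r 18))).mul (E.r 100).inv),
      St.rball 104 (E.c (zi 0)) ((((E.r 96).mul (E.r 102)).mul (E.r 86)).mul ((E.r 103).mul (E.r 99))),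
      St.lt
        ((((E.r 3).mul ((E.r 22).sub (E.r 96))).add ((E.r 96).mul (((E.r 22).sub (E.r 102)).mul (E.r 99)))).add
          (E.r 104))
        TH]

/-- the test at `v = ve`; inputs `ε`, `b`, `x` -/
def PST (t : TD) (ve : ℤ) : List St :=
  [St.set 3 (E.r 2)] ++ headS t (bS t) ++ [St.set 2 (E.c (zi ve))] ++ zroS t ++ shQ ++ ieS ++
    [St.pos ((E.c half).sub (((E.r 41).sub (E.r 37)).add ((E.r 53).log.mul (E.r 5))).exp)]

/-! ### Charts -/

/-- common part of the charts -/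
def basS (t : TD) : List St :=
  [St.set 22 (E.c one), St.set 4 (bS t), St.set 6 ((E.r 0).mul (E.r 4)), St.set 8 (E.r 6).exp,
    St.set 9 (E.r 6).neg.exp, St.set 15 ((E.r 6).mul (E.r 6)), St.lt (E.r 15) 68719476736,
    St.rball 16 (sncE (E.r 15)) bl,
    St.set 18 (((E.sc two (E.r 4)).mul (E.r 16)).mul (E.sc half ((E.r 8).add (E.r 9)))),
    St.set 20 ((E.r 18).mul (E.r 18))]

def gS : ℕ → E
  | 0 => .c (zi 0)
  | 1 => .c one
  | 2 => .add (.sc one (.r 12)) (.r 22)
  | n + 3 => .add (.mul (.r 12) (gS (n + 2))) (.r 22)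

/-- `exp (-κ) (1 + k + ... + k^(n-1))` -/
def qS : ℕ → E
  | 0 => .c (zi 0)
  | 1 => .r 11
  | n + 2 => .mul (.r 11) (gS (n + 2))

/-- radius `23` and `24` (1 - radius)/K; `11` exp (-κ), `12` exp (-2κ), `19` s_n, `21` k^n -/
def geS (t : TD) (n : ℕ) : List St :=
  [St.set (mreg 1 0) ((E.r 0).sub (E.c (zi t.ec))),
        St.set (mreg 0 1) (bif t.bc == 0 then E.r 4 else (E.r 4).sub (E.c (zi t.bc)))] ++
      monos [] t.Lt ++
    [St.set 11 ((E.r 9).mul (E.r 9)), St.set 12 ((E.r 11).mul (E.r 11)),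
      St.set 21 (E.sc (zn (4 * n)) (E.r 6)).neg.exp, St.set 19 (q2E t.Lt 0 (sumT t n)),
      St.set 23 ((E.r 21).mul ((((E.r 0).mul (E.r 18)).mul (E.r 19)).add (E.r 22))),
      St.set 24 ((E.sc two (qS n)).sub ((E.r 19).mul (E.r 21)))]

/-- the circle, `T/ε` in register `5` -/
def cA (t : TD) (n : ℕ) : List St :=
  basS t ++ geS t n ++
    [St.set 26 ((E.r 0).mul (E.r 24)), St.set 27 ((E.r 23).add (E.r 22)), St.set 28 ((E.r 26).mul (E.r 20)),
      St.set 5
        (((E.r 28).add (E.sc zI ((E.r 27).mul (E.r 2)))).mul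
          ((E.r 27).add (E.sc zI ((E.r 26).mul (E.r 2)))).inv)]

def cB (t : TD) (n : ℕ) : List St :=
  basS t ++ geS t n ++
    [St.set 26 ((E.r 0).mul (E.r 24)), St.set 27 ((E.r 23).add (E.r 22)), St.set 28 ((E.r 26).mul (E.r 20)),
      St.set 5
        ((((E.r 28).mul (E.r 2)).add (E.sc zI (E.r 27))).mul
          (((E.r 27).mul (E.r 2)).add (E.sc zI (E.r 26))).inv)]

/-- the inner arc -/
def cC (t : TD) : List St :=
  basS t ++
    [St.set 29 (E.sc zI (E.r 2)),
      St.set 5 (E.sc (zi t.s1) (((E.r 29).add (E.r 22)).mul ((E.r 22).sub (E.r 29)).inv))]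

/-- `Ke² + Y` in register `30` -/
def BS (t : TD) (n : ℕ) : List St :=
  [St.set 30 ((E.r 20).add (E.c (zi (nth 0 t.y (n - 1)))))]

/-- the outer arc -/
def cD (t : TD) (n : ℕ) : List St :=
  basS t ++ BS t n ++ [St.set 5 (E.sc half ((E.r 20).add ((E.r 30).mul (E.sc zI (E.r 2)).exp)).log).exp]

def cE (t : TD) (n : ℕ) : List St :=
  basS t ++ BS t n ++
    [St.set 5 (E.sc zI (E.sc half (((E.r 30).mul (E.sc zmI (E.r 2)).exp).sub (E.r 20)).log).exp)]

def cF (t : TD) (n : ℕ) : List St :=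
  basS t ++ BS t n ++ [St.set 5 (E.sc half ((E.r 20).sub ((E.r 30).mul (E.sc zmI (E.r 2)).exp)).log).exp]

/-- the point of the circle is outside the cut -/
def oCut (t : TD) (n : ℕ) : List St :=
  BS t n ++
    [St.lt (((E.r 0).mul (E.r 30)).mul ((((E.r 0).mul (E.r 5)).mul (E.r 5)).sub ((E.r 0).mul (E.r 20))).inv)
        THA]

/-- the point is inside the inner circle -/
def oIn (t : TD) : List St :=
  [St.lt (E.sc (zi t.is1) (E.r 5)) THA]

/-- the point of the inner arc is outside the disc -/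
def oC (t : TD) (n : ℕ) : List St :=
  basS t ++ geS t n ++
    [St.set 31 ((E.r 2).mul (E.r 2)),
      St.pos
        (((((E.r 0).mul (E.r 24)).mul ((E.r 23).add (E.r 22))).mul
              (((E.r 20).add (E.c (zi (t.s1 * t.s1 / 1099511627776)))).mul ((E.r 31).add (E.r 22)))).sub
          ((((E.r 23).mul (E.r 23)).add (E.r 22)).mul (E.sc (zi (2 * t.s1)) ((E.r 22).sub (E.r 31)))))]

/-- `|Ke - Te| > R |Ke + Te|` for the point `32`, conjugate `33` -/
def oRe : List St :=
  [St.pos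
      (((((E.r 0).mul (E.r 24)).mul ((E.r 23).add (E.r 22))).mul ((E.r 20).add ((E.r 32).mul (E.r 33)))).sub
        ((((E.r 23).mul (E.r 23)).add (E.r 22)).mul ((E.r 32).add (E.r 33))))]

def oD (t : TD) (n : ℕ) : List St :=
  basS t ++ geS t n ++ BS t n ++
      [St.set 32 (E.sc half ((E.r 20).add ((E.r 30).mul (E.sc zI (E.r 2)).exp)).log).exp,
        St.set 33 (E.sc half ((E.r 20).add ((E.r 30).mul (E.sc zmI (E.r 2)).exp)).log).exp] ++
    oRe

def oE (t : TD) (n : ℕ) : List St :=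
  basS t ++ geS t n ++ BS t n ++
      [St.set 32 (E.sc zI (E.sc half (((E.r 30).mul (E.sc zmI (E.r 2)).exp).sub (E.r 20)).log).exp),
        St.set 33 (E.sc zmI (E.sc half (((E.r 30).mul (E.sc zI (E.r 2)).exp).sub (E.r 20)).log).exp)] ++
    oRe

def oF (t : TD) (n : ℕ) : List St :=
  basS t ++ geS t n ++ BS t n ++
      [St.set 32 (E.sc half ((E.r 20).sub ((E.r 30).mul (E.sc zmI (E.r 2)).exp)).log).exp,
        St.set 33 (E.sc half ((E.r 20).sub ((E.r 30).mul (E.sc zI (E.r 2)).exp)).log).exp] ++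
    oRe

end Pool.Agent.helper4.NS
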