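import Pool.Agent.helper4.NS.PolyEv
import Pool.Agent.helper63.NF.SpecNear2

/-!
# Facts of the blocks of the programs, state `T/ε`

`T` is the state of the record, `T e` is in the registers.
-/

namespace Pool.Agent.helper4.NS

open Complex
open Pool.Agent.helper31.IA (Z get)
open Pool.Agent.helper12.RS
open Pool.Agent.helper63.NF

/-- the registers after the head (all but `1`, `2`, `3`, `5`) -/
structure HFS (t : TD) (e κ : ℝ) (σ : ℕ → ℂ) : Prop where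
  ep : σ 0 = ((1 / e : ℝ) : ℂ)
  b : σ 4 = ((e * κ / 2 : ℝ) : ℂ)
  k : σ 7 = (κ : ℂ)
  E : σ 8 = (Real.exp (κ / 2) : ℂ)
  Ei : σ 9 = (Real.exp (-(κ / 2)) : ℂ)
  q : σ 10 = (Real.exp κ : ℂ)
  qi : σ 11 = (Real.exp (-κ) : ℂ)
  kk : σ 12 = (Real.exp (-κ) : ℂ) ^ 2
  c : σ 13 = (Real.cosh κ : ℂ)
  b2 : σ 14 = ((e * κ : ℝ) : ℂ)
  z : σ 17 = (Hh κ : ℂ) * e
  Ke : σ 18 = (Real.sinh κ : ℂ) * e
  Ze : σ 19 = (Hh κ : ℂ) ^ 2 * e
  Ke2 : σ 20 = ((Real.sinh κ : ℂ) * e) ^ 2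
  eK : σ 21 = (Real.sinh κ : ℂ) ^ 2 * e
  one : σ 22 = 1
  Mi : σ 23 = (Real.exp (-(e * κ)) : ℂ)
  Mi1 : σ 24 = (Real.exp (-(e * κ)) : ℂ) + 1
  LMi : σ 25 = (LM e κ : ℂ)
  mi : MI t.L (t.tb.de e) (t.tb.db e κ) σ

theorem HFS.of_eq {t : TD} {e κ : ℝ} {σ τ : ℕ → ℂ} (h : HFS t e κ σ)
    (h1 : ∀ i, i < 26 → i ≠ 1 → i ≠ 2 → i ≠ 3 → i ≠ 5 → τ i = σ i)
    (h2 : ∀ i j, τ (mreg i j) = σ (mreg i j)) : HFS t e κ τ := by
  refine ⟨?_, ?_, ?_, ?_, ?_, ?_, ?_, ?_, ?_, ?_, ?_, ?_, ?_, ?_, ?_, ?_, ?_, ?_, ?_, ?_⟩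
  · rw [h1 0 (by omega) (by omega) (by omega) (by omega) (by omega), h.ep]
  · rw [h1 4 (by omega) (by omega) (by omega) (by omega) (by omega), h.b]
  · rw [h1 7 (by omega) (by omega) (by omega) (by omega) (by omega), h.k]
  · rw [h1 8 (by omega) (by omega) (by omega) (by omega) (by omega), h.E]
  · rw [h1 9 (by omega) (by omega) (by omega) (by omega) (by omega), h.Ei]
  · rw [h1 10 (by omega) (by omega) (by omega) (by omega) (by omega), h.q]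
  · rw [h1 11 (by omega) (by omega) (by omega) (by omega) (by omega), h.qi]
  · rw [h1 12 (by omega) (by omega) (by omega) (by omega) (by omega), h.kk]
  · rw [h1 13 (by omega) (by omega) (by omega) (by omega) (by omega), h.c]
  · rw [h1 14 (by omega) (by omega) (by omega) (by omega) (by omega), h.b2]
  · rw [h1 17 (by omega) (by omega) (by omega) (by omega) (by omega), h.z]
  · rw [h1 18 (by omega) (by omega) (by omega) (by omega) (by omega), h.Ke]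
  · rw [h1 19 (by omega) (by omega) (by omega) (by omega) (by omega), h.Ze]
  · rw [h1 20 (by omega) (by omega) (by omega) (by omega) (by omega), h.Ke2]
  · rw [h1 21 (by omega) (by omega) (by omega) (by omega) (by omega), h.eK]
  · rw [h1 22 (by omega) (by omega) (by omega) (by omega) (by omega), h.one]
  · rw [h1 23 (by omega) (by omega) (by omega) (by omega) (by omega), h.Mi]
  · rw [h1 24 (by omega) (by omega) (by omega) (by omega) (by omega), h.Mi1]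
  · rw [h1 25 (by omega) (by omega) (by omega) (by omega) (by omega), h.LMi]
  · exact ⟨by rw [h2, h.mi.hu], by rw [h2, h.mi.hv], fun i j hij => by rw [h2, h.mi.hm i j hij]⟩

/-- the registers after a node block -/
structure NOS (t : TD) (e κ : ℝ) (B : ℕ) (T : ℂ) (σ : ℕ → ℂ) : Prop where
  Q : σ B = (Real.cosh κ : ℂ) + T
  Qre : 0 < ((Real.cosh κ : ℂ) + T).re
  u : σ (B + 1) = Tb.uT κ T
  f : σ (B + 2) = Tb.vT e κ T
  y : σ (B + 3) = Tb.yT e κ T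
  pol : podom t.tb.pol (t.tb.de e) (Tb.yT e κ T)
  l2 : σ (B + 4) = t.tb.lT e κ T - ((e * κ : ℝ) : ℂ)
  l : σ (B + 5) = t.tb.lT e κ T
  M : σ (B + 6) = exp (-(t.tb.lT e κ T))
  Mp : σ (B + 7) = exp (-(t.tb.lT e κ T)) + 1
  M1 : 0 < (1 + exp (-(t.tb.lT e κ T))).re
  m : σ (B + 8) = lc (t.tb.lT e κ T)

theorem NOS.of_eq {t : TD} {e κ : ℝ} {B : ℕ} {T : ℂ} {σ τ : ℕ → ℂ} (h : NOS t e κ B T σ)
    (h1 : ∀ i, B ≤ i → i < B + 16 → τ i = σ i) : NOS t e κ B T τ := by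
  refine ⟨?_, h.Qre, ?_, ?_, ?_, h.pol, ?_, ?_, ?_, ?_, h.M1, ?_⟩
  · rw [h1 _ (by omega) (by omega), h.Q]
  · rw [h1 _ (by omega) (by omega), h.u]
  · rw [h1 _ (by omega) (by omega), h.f]
  · rw [h1 _ (by omega) (by omega), h.y]
  · rw [h1 _ (by omega) (by omega), h.l2]
  · rw [h1 _ (by omega) (by omega), h.l]
  · rw [h1 _ (by omega) (by omega), h.M]
  · rw [h1 _ (by omega) (by omega), h.Mp]
  · rw [h1 _ (by omega) (by omega), h.m]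

/-- the coefficients of `H` are in their registers -/
def HHS (t : TD) (e κ : ℝ) (σ : ℕ → ℂ) : Prop :=
  (hlQ t.L 0 t.H).map (E.ev σ) = hV (t.tb.de e) (t.tb.db e κ) 0 t.H

/-- bound of the displacement after node `n` (number `0`: the first node) -/
noncomputable def dS (t : TD) (n : ℕ) (e κ : ℝ) : ℝ := Real.sinh κ * (t.tR n e κ * kk κ ^ (n + 1))

/-- the registers after the blocks of a link (`lnkS`, `lnkT`) -/
structure LKS (t : TD) (e κ : ℝ) (m : ℕ) (T x T1 : ℂ) (σ : ℕ → ℂ) : Prop where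
  ie : σ 5 = (e : ℂ)
  fTK : σ 45 = (T + (Real.sinh κ : ℂ)) * e
  TKre : 0 < (T + (Real.sinh κ : ℂ)).re
  fa : σ 46 = t.tb.an e κ m
  fden : σ 47 = t.tb.c m * (T * e) + 1
  dre : 0 < (t.tb.c m * (T * e) + 1).re
  fr : σ 49 = t.tb.rT e κ m T
  F : 0 < (1 + exp (-(t.tb.lT e κ T)) * (t.tb.rT e κ m T * x)).re
  g : 0 < (1 - t.tb.rT e κ m T * x).re
  S : Sn e κ (Tb.yT e κ T) (t.tb.lT e κ T) (t.tb.rT e κ m T * x) = ((Real.cosh κ : ℂ) + T1) ^ 2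
  fD2 : σ 69 = (T1 - ((Real.cosh κ : ℂ) - Tb.uT κ T)) * e * e
  f70 : σ 70 = T1 * e
  fiTK : σ 71 = ((T + (Real.sinh κ : ℂ)) * e)⁻¹
  fp : σ 72 = ((T + (Real.sinh κ : ℂ)) * e)⁻¹ * ((Real.exp (-κ) : ℂ) * ((Real.cosh κ : ℂ) + T))
  fpd : σ 73 = σ 72 * σ 69
  fs : σ 74 = ((1 / e : ℝ) : ℂ) * σ 73 + 1
  sre : 0 < (σ 74).re
  fLQ : σ 75 = (e : ℂ) * log ((Real.cosh κ : ℂ) + T1) - ((e * κ : ℝ) : ℂ)

/-- the registers after the common part `nerS t (m + 1)` of the near nodes -/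
structure NRS (t : TD) (e κ : ℝ) (m : ℕ) (T x T1 : ℂ) (σ : ℕ → ℂ) : Prop where
  hF : HFS t e κ σ
  hH : HHS t e κ σ
  nd : NOS t e κ 26 T σ
  lk : LKS t e κ m T x T1 σ
  fx : σ 3 = x
  fM : σ 96 = t.tb.MT e κ m T
  fia : σ 98 = (t.s2 (m + 1) * t.tb.an e κ m)⁻¹
  fir : σ 99 * t.s2 (m + 1) = (t.tb.rT e κ m T)⁻¹
  ane : t.tb.an e κ m ≠ 0
  TK1 : T1 + (Real.sinh κ : ℂ) ≠ 0
  tpos : 0 < t.tR (m + 1) e κ
  disp : ‖omT κ T1 - (kk κ : ℂ) * omT κ T‖ ≤ dS t (m + 1) e κ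
  cut : ‖T1 ^ 2 - (Real.sinh κ : ℂ) ^ 2‖ ≤ Real.sinh κ ^ 2 + t.Y (m + 1) e

theorem NRS.r_ne {t : TD} {e κ : ℝ} (he : 0 < e) {m : ℕ} {T x T1 : ℂ} {σ : ℕ → ℂ}
    (h : NRS t e κ m T x T1 σ) : t.tb.rT e κ m T ≠ 0 := by
  unfold Tb.rT
  have he0 : (e : ℂ) ≠ 0 := by exact_mod_cast he.ne'
  have h1 := ne_of_re h.lk.dre
  have h2 : ((1 / e : ℝ) : ℂ) + t.tb.c m * T ≠ 0 := by
    intro h0
    apply h1
    have h3 : t.tb.c m * (T * e) + 1 = (((1 / e : ℝ) : ℂ) + t.tb.c m * T) * e := by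
      push_cast
      field_simp
      ring
    rw [h3, h0, zero_mul]
  exact div_ne_zero (mul_ne_zero (mul_ne_zero two_ne_zero h.ane) (ne_of_re h.lk.TKre)) h2

end Pool.Agent.helper4.NS
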